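import Pool.Agent.Work.MP_74ecad_co.Upper

namespace Pool.Agent.Work.MP_74ecad_co

noncomputable instance (n : ℕ) (tg : ℕ → ℕ) (a x : ℕ) : Decidable (sw n tg a x) :=
  inferInstanceAs (Decidable (x + a + 1 < n ∧ x ≠ cut n tg (rowS n tg a) a))

/-- The swaps of step `t` of the parallel schedule. -/
noncomputable def sT (n : ℕ) (tg : ℕ → ℕ) (t : ℕ) : Finset ℕ :=
  (Finset.range n).filter (fun p => p ≤ t ∧ (t - p) % 2 = 0 ∧ sw n tg ((t - p) / 2) p)

theorem mem_sT {n : ℕ} {tg : ℕ → ℕ} {t p : ℕ} :
    p ∈ sT n tg t ↔ p ≤ t ∧ (t - p) % 2 = 0 ∧ sw n tg ((t - p) / 2) p := by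
  unfold sT
  rw [Finset.mem_filter, Finset.mem_range]
  constructor
  · rintro ⟨_, h⟩
    exact h
  · rintro ⟨h1, h2, h3⟩
    refine ⟨?_, h1, h2, h3⟩
    have := h3.1
    omega

theorem sT_lt (n : ℕ) (tg : ℕ → ℕ) (t : ℕ) : ∀ p ∈ sT n tg t, p + 1 < n := by
  intro p hp
  have := (mem_sT.1 hp).2.2.1
  omega

theorem sT_far (n : ℕ) (tg : ℕ → ℕ) (t : ℕ) :
    ∀ p ∈ sT n tg t, ∀ q ∈ sT n tg t, p < q → p + 2 ≤ q := by
  intro p hp q hq hpq
  have h1 := mem_sT.1 hp
  have h2 := mem_sT.1 hq
  omega

/-- The arrangement after `t` steps of the parallel schedule. -/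
noncomputable def st (n : ℕ) (tg : ℕ → ℕ) (t x : ℕ) : ℕ :=
  if t < x then x
  else if (t - x) % 2 = 0 then mv (rowS n tg ((t - x) / 2)) (sw n tg ((t - x) / 2)) x
  else rowS n tg ((t - x + 1) / 2) x

theorem st_before {n : ℕ} {tg : ℕ → ℕ} {t x : ℕ} (h : t < x) : st n tg t x = x := by
  unfold st
  rw [if_pos h]

theorem st_even {n : ℕ} {tg : ℕ → ℕ} {t x a : ℕ} (h : t = x + 2 * a) :
    st n tg t x = mv (rowS n tg a) (sw n tg a) x := by
  unfold st
  have h1 : ¬ t < x := by omega
  have h2 : (t - x) % 2 = 0 := by omega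
  have h3 : (t - x) / 2 = a := by omega
  rw [if_neg h1, if_pos h2, h3]

theorem st_odd {n : ℕ} {tg : ℕ → ℕ} {t x a : ℕ} (h : t + 1 = x + 2 * a) (ha : 1 ≤ a) :
    st n tg t x = rowS n tg a x := by
  unfold st
  have h1 : ¬ t < x := by omega
  have h2 : ¬ (t - x) % 2 = 0 := by omega
  have h3 : (t - x + 1) / 2 = a := by omega
  rw [if_neg h1, if_neg h2, h3]

theorem mem_sT_even {n : ℕ} {tg : ℕ → ℕ} {t p a : ℕ} (h : t = p + 2 * a) :
    p ∈ sT n tg t ↔ sw n tg a p := by
  rw [mem_sT]
  have h2 : (t - p) % 2 = 0 := by omega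
  have h3 : (t - p) / 2 = a := by omega
  rw [h3]
  constructor
  · rintro ⟨_, _, h4⟩
    exact h4
  · intro h4
    exact ⟨by omega, h2, h4⟩

theorem notMem_sT {n : ℕ} {tg : ℕ → ℕ} {t p : ℕ} (h : t < p ∨ (t - p) % 2 = 1) :
    p ∉ sT n tg t := by
  rw [mem_sT]
  rintro ⟨h1, h2, _⟩
  omega

theorem st_step (n : ℕ) (tg : ℕ → ℕ) (t x : ℕ) :
    st n tg (t + 1) x = st n tg t (swp (sT n tg t) x) := by
  rcases Nat.lt_or_ge (t + 1) x with h | h
  · -- before
    have h1 : x ∉ sT n tg t := notMem_sT (Or.inl (by omega))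
    have h2 : ¬ (1 ≤ x ∧ x - 1 ∈ sT n tg t) := by
      rintro ⟨_, h2⟩
      exact notMem_sT (Or.inl (by omega)) h2
    unfold swp
    rw [if_neg h1, if_neg h2, st_before h, st_before (by omega)]
  · rcases Nat.lt_or_ge t x with h' | h'
    · -- x = t + 1
      have hx : x = t + 1 := by omega
      subst hx
      have h1 : t + 1 ∉ sT n tg t := notMem_sT (Or.inl (by omega))
      unfold swp
      rw [if_neg h1, Nat.add_sub_cancel]
      rw [st_even (a := 0) (by omega : t + 1 = t + 1 + 2 * 0)]
      by_cases h2 : t ∈ sT n tg t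
      · have h3 := (mem_sT_even (a := 0) (by omega : t = t + 2 * 0)).1 h2
        rw [if_pos ⟨by omega, h2⟩, mv_pos _ _ _ h3, st_even (a := 0) (by omega)]
      · have h3 : ¬ sw n tg 0 t := fun h =>
          h2 ((mem_sT_even (a := 0) (by omega : t = t + 2 * 0)).2 h)
        rw [if_neg (fun h => h2 h.2), mv_neg _ _ _ h3, st_before (by omega)]
        rfl
    · rcases Nat.mod_two_eq_zero_or_one (t - x) with hpar | hpar
      · obtain ⟨a, ha⟩ : ∃ a, t = x + 2 * a := ⟨(t - x) / 2, by omega⟩
        rw [st_odd (a := a + 1) (by omega) (by omega), rowS_succ]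
        unfold swp
        by_cases h1 : x ∈ sT n tg t
        · have h2 := (mem_sT_even ha).1 h1
          rw [if_pos h1, nx_pos _ _ _ h2]
          rcases Nat.eq_zero_or_pos a with h3 | h3
          · subst h3
            rw [st_before (by omega)]
            rfl
          · rw [st_odd (a := a) (by omega) h3]
        · have h2 : ¬ sw n tg a x := fun h => h1 ((mem_sT_even ha).2 h)
          have h3 : ¬ (1 ≤ x ∧ x - 1 ∈ sT n tg t) := by
            rintro ⟨h4, h5⟩
            exact notMem_sT (Or.inr (by omega)) h5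
          rw [if_neg h1, if_neg h3, nx_neg _ _ _ h2, st_even ha]
      · obtain ⟨a, ha⟩ : ∃ a, t + 1 = x + 2 * a := ⟨(t - x + 1) / 2, by omega⟩
        rw [st_even ha]
        unfold swp
        have h1 : x ∉ sT n tg t := notMem_sT (Or.inr hpar)
        rw [if_neg h1]
        rcases Nat.eq_zero_or_pos x with hx | hx
        · subst hx
          rw [if_neg (by omega), st_odd ha (by omega)]
          rfl
        · obtain ⟨z, rfl⟩ : ∃ z, x = z + 1 := ⟨x - 1, by omega⟩
          have hz : t = z + 2 * a := by omega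
          rw [Nat.add_sub_cancel]
          by_cases h2 : z ∈ sT n tg t
          · rw [if_pos ⟨by omega, h2⟩, mv_pos _ _ _ ((mem_sT_even hz).1 h2), st_even hz]
          · have h3 : ¬ sw n tg a z := fun h => h2 ((mem_sT_even hz).2 h)
            rw [if_neg (fun h => h2 h.2), mv_neg _ _ _ h3, st_odd ha (by omega)]

theorem mv_none {S : ℕ → ℕ} {w : ℕ → Prop} (hw : ∀ x, ¬ w x) (x : ℕ) : mv S w x = S x := by
  cases x with
  | zero => rfl
  | succ x => exact mv_neg _ _ _ (hw x)

theorem sw_none {n : ℕ} {tg : ℕ → ℕ} {a : ℕ} (ha : n ≤ a) (x : ℕ) : ¬ sw n tg a x := by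
  rintro ⟨h, _⟩
  omega

theorem rowS_const {n : ℕ} {tg : ℕ → ℕ} {a : ℕ} (ha : n ≤ a) (x : ℕ) :
    rowS n tg a x = rowS n tg n x := by
  induction a, ha using Nat.le_induction with
  | base => rfl
  | succ a ha ih =>
    rw [rowS_succ, nx_neg _ _ _ (sw_none ha x), mv_none (sw_none ha), ih]

theorem st_final {n : ℕ} {tg : ℕ → ℕ} {x : ℕ} (hx : x < n) :
    st n tg (3 * n) x = rowS n tg n x := by
  rcases Nat.mod_two_eq_zero_or_one (3 * n - x) with hpar | hpar
  · obtain ⟨a, ha⟩ : ∃ a, 3 * n = x + 2 * a := ⟨(3 * n - x) / 2, by omega⟩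
    rw [st_even ha, mv_none (sw_none (by omega)), rowS_const (by omega)]
  · obtain ⟨a, ha⟩ : ∃ a, 3 * n + 1 = x + 2 * a := ⟨(3 * n - x + 1) / 2, by omega⟩
    rw [st_odd ha (by omega), rowS_const (by omega)]

/-- The tangle of the parallel schedule. -/
noncomputable def schedT (n : ℕ) (tg : ℕ → ℕ) : Tangle n :=
  mkTangle (3 * n) (sT n tg) (sT_lt n tg) (sT_far n tg)

theorem schedT_perm (n : ℕ) (tg : ℕ → ℕ) (t : ℕ) (x : Fin n) :
    ((schedT n tg).perm t x).val = st n tg t x.val := by
  induction t generalizing x with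
  | zero =>
    change x.val = st n tg 0 x.val
    rcases Nat.eq_zero_or_pos x.val with h | h
    · rw [h, st_even (a := 0) (by omega)]
      rfl
    · rw [st_before h]
  | succ t ih =>
    rw [st_step]
    exact ih ⟨swp (sT n tg t) x.val, swp_lt (sT_lt n tg t) x.2⟩

theorem schedT_moves (n : ℕ) (tg : ℕ → ℕ) : (schedT n tg).totalMoves ≤ 4 * n := by
  classical
  rw [Tangle.totalMoves_eq]
  have hmem : ∀ p t : ℕ, (((p : ℤ), (t : ℤ)) ∈ (schedT n tg).cells) ↔
      t < 3 * n ∧ p ∈ sT n tg t := fun p t => (schedT n tg).mem_cells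
  have hex : ∀ c ∈ (schedT n tg).cells, ∃ p a : ℕ, c = ((p : ℤ), ((p + 2 * a : ℕ) : ℤ)) ∧
      p + 2 * a < 3 * n ∧ sw n tg a p := by
    intro c hc
    obtain ⟨p, t, h1, h2, h3⟩ := (schedT n tg).exists_of_mem_cells hc
    have h3' : p ∈ sT n tg t := h3
    have h4 := mem_sT.1 h3'
    have ht : t = p + 2 * ((t - p) / 2) := by omega
    refine ⟨p, (t - p) / 2, ?_, ?_, h4.2.2⟩
    · rw [← ht]; exact h1
    · rw [← ht]; exact h2
  have hA : ((bdE (schedT n tg).cells).filter (fun x => sg true x = 1)).card ≤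
      (Finset.range (2 * n)).card := by
    apply Finset.card_le_card_of_injOn (fun x : Edg => if x.1.1 = 0 then
      (x.1.2 - x.1.1).toNat else (x.1.2 - x.1.1).toNat + 1)
    · rintro ⟨c, k⟩ hx
      have hx' := Finset.mem_filter.1 hx
      obtain ⟨p, a, h1, h2, h3⟩ := hex c (mem_bdE.1 hx'.1).1
      subst h1
      have := h3.1
      rw [Finset.mem_coe, Finset.mem_range]
      simp only
      split_ifs <;> omega
    · rintro ⟨c, k⟩ hx ⟨c', k'⟩ hx' heq
      have hy := Finset.mem_filter.1 hx
      have hy' := Finset.mem_filter.1 hx'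
      obtain ⟨hb1, hb2⟩ := mem_bdE.1 hy.1
      obtain ⟨hb1', hb2'⟩ := mem_bdE.1 hy'.1
      obtain ⟨p, a, h1, h2, h3⟩ := hex c hb1
      obtain ⟨p', a', h1', h2', h3'⟩ := hex c' hb1'
      have hk : k = 2 := by
        have := hy.2
        revert this
        fin_cases k <;> simp [sg]
      have hk' : k' = 2 := by
        have := hy'.2
        revert this
        fin_cases k' <;> simp [sg]
      subst hk hk' h1 h1'
      simp only at heq
      have key : ∀ p a : ℕ, p + 2 * a < 3 * n → sw n tg a p →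
          (((p : ℤ), ((p + 2 * a : ℕ) : ℤ)) + dv 2 ∉ (schedT n tg).cells) → p ≠ 0 →
          p = cut n tg (rowS n tg a) a + 1 := by
        intro p a g1 g2 g3 g4
        by_contra hne
        apply g3
        obtain ⟨z, rfl⟩ : ∃ z, p = z + 1 := ⟨p - 1, by omega⟩
        have e : (((z + 1 : ℕ) : ℤ), ((z + 1 + 2 * a : ℕ) : ℤ)) + dv 2 =
            ((z : ℤ), ((z + 2 * a : ℕ) : ℤ)) := by
          simp only [dv, Prod.mk_add_mk]
          push_cast
          apply Prod.ext <;> simp only <;> ring
        rw [e, hmem, mem_sT_even rfl]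
        have := g2.1
        refine ⟨by omega, by omega, by omega⟩
      have ha : a = a' := by
        split_ifs at heq <;> omega
      subst ha
      have hp : p = p' := by
        by_cases hp0 : p = 0
        · by_cases hp0' : p' = 0
          · omega
          · rw [if_pos (by exact_mod_cast hp0), if_neg (by exact_mod_cast hp0')] at heq
            omega
        · by_cases hp0' : p' = 0
          · rw [if_neg (by exact_mod_cast hp0), if_pos (by exact_mod_cast hp0')] at heq
            omega
          · rw [key p a h2 h3 hb2 hp0, key p' a h2' h3' hb2' hp0']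
      rw [hp]
  have hB : ((bdE (schedT n tg).cells).filter (fun x => sg false x = 1)).card ≤
      (Finset.range (2 * n)).card := by
    apply Finset.card_le_card_of_injOn (fun x : Edg => if x.1.2 = x.1.1 then
      2 * x.1.1.toNat else (x.1.2 - x.1.1).toNat + 1)
    · rintro ⟨c, k⟩ hx
      have hx' := Finset.mem_filter.1 hx
      obtain ⟨p, a, h1, h2, h3⟩ := hex c (mem_bdE.1 hx'.1).1
      subst h1
      have := h3.1
      rw [Finset.mem_coe, Finset.mem_range]
      simp only
      split_ifs <;> omega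
    · rintro ⟨c, k⟩ hx ⟨c', k'⟩ hx' heq
      have hy := Finset.mem_filter.1 hx
      have hy' := Finset.mem_filter.1 hx'
      obtain ⟨hb1, hb2⟩ := mem_bdE.1 hy.1
      obtain ⟨hb1', hb2'⟩ := mem_bdE.1 hy'.1
      obtain ⟨p, a, h1, h2, h3⟩ := hex c hb1
      obtain ⟨p', a', h1', h2', h3'⟩ := hex c' hb1'
      have hk : k = 3 := by
        have := hy.2
        revert this
        fin_cases k <;> simp [sg]
      have hk' : k' = 3 := by
        have := hy'.2
        revert this
        fin_cases k' <;> simp [sg]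
      subst hk hk' h1 h1'
      simp only at heq
      have key : ∀ p a : ℕ, p + 2 * a < 3 * n → sw n tg a p →
          (((p : ℤ), ((p + 2 * a : ℕ) : ℤ)) + dv 3 ∉ (schedT n tg).cells) → a ≠ 0 →
          p + 1 = cut n tg (rowS n tg (a - 1)) (a - 1) := by
        intro p a g1 g2 g3 g4
        by_contra hne
        apply g3
        obtain ⟨z, rfl⟩ : ∃ z, a = z + 1 := ⟨a - 1, by omega⟩
        have e : ((p : ℤ), ((p + 2 * (z + 1) : ℕ) : ℤ)) + dv 3 =
            (((p + 1 : ℕ) : ℤ), ((p + 1 + 2 * z : ℕ) : ℤ)) := by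
          simp only [dv, Prod.mk_add_mk]
          push_cast
          apply Prod.ext <;> simp only <;> ring
        rw [e, hmem, mem_sT_even rfl]
        have := g2.1
        refine ⟨by omega, by omega, ?_⟩
        simpa using hne
      by_cases ha0 : a = 0
      · subst ha0
        by_cases ha0' : a' = 0
        · subst ha0'
          rw [if_pos (by push_cast; ring), if_pos (by push_cast; ring)] at heq
          have : p = p' := by omega
          rw [this]
        · rw [if_pos (by push_cast; ring), if_neg (by push_cast; omega)] at heq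
          omega
      · by_cases ha0' : a' = 0
        · subst ha0'
          rw [if_neg (by push_cast; omega), if_pos (by push_cast; ring)] at heq
          omega
        · rw [if_neg (by push_cast; omega), if_neg (by push_cast; omega)] at heq
          have ha : a = a' := by omega
          subst ha
          have e1 := key p a h2 h3 hb2 ha0
          have e2 := key p' a h2' h3' hb2' ha0'
          have : p = p' := by omega
          rw [this]
  rw [Finset.card_range] at hA hB
  unfold starts
  omega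

/-- Every permutation is performed by a tangle with at most `4 n` moves. -/
theorem upper_bound (n : ℕ) (π : Equiv.Perm (Fin n)) :
    ∃ τ : Tangle n, τ.Performs π ∧ τ.totalMoves ≤ 4 * n := by
  classical
  let tg : ℕ → ℕ := fun a => if h : a < n then (π ⟨n - 1 - a, by omega⟩).val else 0
  have htg : ∀ a (h : a < n), tg a = (π ⟨n - 1 - a, by omega⟩).val := by
    intro a h
    simp only [tg]
    rw [dif_pos h]
  refine ⟨schedT n tg, ?_, schedT_moves n tg⟩
  apply Equiv.ext
  intro x
  apply Fin.ext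
  change ((schedT n tg).perm (3 * n) x).val = _
  rw [schedT_perm, st_final x.2]
  have hx := x.2
  have h1 : ∀ a < n, tg a < n := by
    intro a ha
    rw [htg a ha]
    exact (π _).2
  have h2 : ∀ a < n, ∀ b < n, tg a = tg b → a = b := by
    intro a ha b hb hab
    rw [htg a ha, htg b hb] at hab
    have := π.injective (Fin.ext hab)
    simp only [Fin.mk.injEq] at this
    omega
  have h3 := rowS_target h1 h2 n le_rfl (n - 1 - x.val) (by omega)
  have h4 : n - 1 - (n - 1 - x.val) = x.val := by omega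
  rw [h4, htg _ (by omega)] at h3
  rw [h3]
  congr 2
  apply Fin.ext
  exact h4

end Pool.Agent.Work.MP_74ecad_co
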