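import Pool.Agent.Work.MP_74ecad_co.Paths

namespace Pool.Agent.Work.MP_74ecad_co

/-- The main inequality between the number of starts of runs and the number of boundary cycles. -/
theorem macro_bound {D : Finset Cell} (hD : NonOv D) (h0 : ∀ c ∈ D, 0 ≤ c.2) {κ n T : ℕ}
    (hκ : 1 ≤ κ)
    (hR : ∀ x : ℤ, 0 ≤ x → x < κ ^ 2 → (n : ℤ) - κ ^ 2 ≤ pth D x T)
    (hL : ∀ x : ℤ, (n : ℤ) - κ ^ 2 ≤ x → x < n → pth D x T < κ ^ 2) :
    2 * κ * ncyc D (bdE D) + 2 * κ * n ≤ κ * starts (bdE D) + 12 * starts (bdE D) + 4 * κ ^ 3 := by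
  classical
  obtain ⟨K, rfl⟩ : ∃ K, κ = K + 1 := ⟨κ - 1, by omega⟩
  obtain ⟨m, hm⟩ : ∃ m, m = starts (bdE D) := ⟨_, rfl⟩
  rw [← hm]
  have hE : (bdE D).card = 2 * m := by rw [hm]; exact card_eq_starts (closed_bdE D)
  have h1 := starts_split D K
  rw [← hm] at h1
  have h2 : 2 * ncyc D (smallE D K) ≤ starts (smallE D K) := by
    have a := ncyc_le (closed_small D K) false
    have b := ncyc_le (closed_small D K) true
    unfold starts
    omega
  have h3 := ncyc_split D K
  have h4 := ncyc_large D K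
  have h5 : (largeE D K).card ≤ 2 * m := by
    rw [← hE]
    exact Finset.card_le_card (closed_large D K).1
  have hq : 0 < (K + 1) ^ 2 := by positivity
  -- the two families of candidates
  have hbad : ∀ (b : Bool) (s : Finset ℤ), s.card = (K + 1) ^ 2 → ∃ x0 ∈ s,
      (K + 1) * ((stepCells b D x0 T).filter (fun c => c ∈ seen b D K)).card ≤ 4 * m := by
    intro b s hs
    obtain ⟨x0, hx0, h6⟩ := exists_few_seen b hD K T s (by
      rw [← Finset.card_pos, hs]; exact hq)
    refine ⟨x0, hx0, ?_⟩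
    rw [hs, hE] at h6
    have h7 : (K + 1) * ((K + 1) *
        ((stepCells b D x0 T).filter (fun c => c ∈ seen b D K)).card) ≤ (K + 1) * (4 * m) := by
      calc (K + 1) * ((K + 1) * ((stepCells b D x0 T).filter (fun c => c ∈ seen b D K)).card)
          = (K + 1) ^ 2 * ((stepCells b D x0 T).filter (fun c => c ∈ seen b D K)).card := by ring
        _ ≤ 2 * m * (2 * K + 1) := h6
        _ ≤ (K + 1) * (4 * m) := by nlinarith
    exact Nat.le_of_mul_le_mul_left h7 (by omega)
  have hc1 : ∀ q : ℕ, (Finset.Ico 0 ((q : ℕ) : ℤ)).card = q := by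
    intro q
    rw [Int.card_Ico]; omega
  have hc2 : ∀ q : ℕ, (Finset.Ico ((n : ℤ) - (q : ℕ)) n).card = q := by
    intro q
    rw [Int.card_Ico]; omega
  obtain ⟨x, hx, hbx⟩ := hbad false (Finset.Ico 0 (((K + 1) ^ 2 : ℕ) : ℤ)) (hc1 _)
  obtain ⟨y, hy, hby⟩ := hbad true (Finset.Ico ((n : ℤ) - ((K + 1) ^ 2 : ℕ)) n) (hc2 _)
  rw [Finset.mem_Ico] at hx hy
  push_cast at hx hy hR hL
  have e1 := hR x hx.1 hx.2
  have e2 := hL y hy.1 hy.2
  have e3 := card_stepCells_false D x T
  have e4 := card_stepCells_true D y T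
  have e5 := large_ge false hD h0 K T x
  have e6 := large_ge true hD h0 K T y
  have h8 : starts (largeE D K) = ((largeE D K).filter (fun x => sg false x = 1)).card +
      ((largeE D K).filter (fun x => sg true x = 1)).card := rfl
  generalize ((stepCells false D x T).filter (fun c => c ∈ seen false D K)).card = bx at *
  generalize ((stepCells true D y T).filter (fun c => c ∈ seen true D K)).card = by' at *
  generalize (stepCells false D x T).card = sx at *
  generalize (stepCells true D y T).card = sy at *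
  generalize ((largeE D K).filter (fun x => sg false x = 1)).card = R at *
  generalize ((largeE D K).filter (fun x => sg true x = 1)).card = L at *
  generalize ncyc D (smallE D K) = cs at *
  generalize ncyc D (largeE D K) = cl at *
  generalize ncyc D (bdE D) = c at *
  generalize starts (smallE D K) = ss at *
  generalize starts (largeE D K) = sl at *
  generalize (largeE D K).card = lE at *
  -- integer inequality
  zify at *
  have f1 : (n : ℤ) - 2 * ((K : ℤ) + 1) ^ 2 ≤ R + bx := by linarith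
  have f2 : (n : ℤ) - 2 * ((K : ℤ) + 1) ^ 2 ≤ L + by' := by linarith
  have f3 : (m : ℤ) ≥ 2 * cs + R + L := by linarith
  have hK : (0 : ℤ) ≤ (K : ℤ) + 1 := by positivity
  have g1 := mul_le_mul_of_nonneg_left f1 hK
  have g2 := mul_le_mul_of_nonneg_left f2 hK
  have g3 := mul_le_mul_of_nonneg_left f3 hK
  have g4 := mul_le_mul_of_nonneg_left h3 hK
  ring_nf at g1 g2 g3 g4 h4 h5 hbx hby ⊢
  linarith

end Pool.Agent.Work.MP_74ecad_co
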