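import Mathlib

/-! Boundary edges of finite sets of cells. A cell `(p, t)` stands for the swap of the positions `p`
and `p + 1` in step `t`. -/

namespace Pool.Agent.Work.MP_74ecad_co

/-- Cells `(position, time)`. -/
abbrev Cell : Type := ℤ × ℤ

/-- A cell together with one of the four diagonal directions. -/
abbrev Edg : Type := Cell × Fin 4

/-- The four diagonal directions. -/
def dv : Fin 4 → Cell
  | 0 => (1, 1)
  | 1 => (-1, 1)
  | 2 => (-1, -1)
  | 3 => (1, -1)

/-- Boundary edges of a set of cells. -/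
def IsBd (D : Finset Cell) (x : Edg) : Prop := x.1 ∈ D ∧ x.1 + dv x.2 ∉ D

/-- Walking along the boundary with a given turn. -/
def stepE (x : Edg) : Fin 3 → Edg
  | 0 => (x.1, x.2 + 1)
  | 1 => (x.1 + dv (x.2 + 1), x.2)
  | 2 => (x.1 + dv x.2 + dv (x.2 + 1), x.2 - 1)

/-- The turn of the boundary walk at an edge. -/
def turn (D : Finset Cell) (x : Edg) : Fin 3 :=
  if x.1 + dv (x.2 + 1) ∈ D then (if x.1 + dv x.2 + dv (x.2 + 1) ∈ D then 2 else 1) else 0

/-- The next boundary edge. -/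
def nxt (D : Finset Cell) (x : Edg) : Edg := stepE x (turn D x)

/-- The previous boundary edge. -/
def prv (D : Finset Cell) (x : Edg) : Edg :=
  if x.1 - dv (x.2 + 1) ∈ D then
    (if x.1 + dv x.2 - dv (x.2 + 1) ∈ D then (x.1 + dv x.2 - dv (x.2 + 1), x.2 + 1)
    else (x.1 - dv (x.2 + 1), x.2))
  else (x.1, x.2 - 1)

theorem dv_add_two (k : Fin 4) : dv (k + 1 + 1) = - dv k := by
  fin_cases k <;> rfl

theorem dv_sub_one (k : Fin 4) : dv (k - 1) = - dv (k + 1) := by
  fin_cases k <;> rfl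

theorem nxt_bd {D : Finset Cell} {x : Edg} (h : IsBd D x) : IsBd D (nxt D x) := by
  obtain ⟨h1, h2⟩ := h
  unfold nxt turn
  split_ifs with h3 h4
  · refine ⟨h4, ?_⟩
    change x.1 + dv x.2 + dv (x.2 + 1) + dv (x.2 - 1) ∉ D
    rw [dv_sub_one, add_neg_cancel_right]
    exact h2
  · refine ⟨h3, ?_⟩
    have : x.1 + dv (x.2 + 1) + dv x.2 = x.1 + dv x.2 + dv (x.2 + 1) := by abel
    change x.1 + dv (x.2 + 1) + dv x.2 ∉ D
    rw [this]; exact h4
  · exact ⟨h1, h3⟩

theorem prv_nxt {D : Finset Cell} {x : Edg} (h : IsBd D x) : prv D (nxt D x) = x := by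
  obtain ⟨h1, h2⟩ := h
  unfold nxt turn
  split_ifs with h3 h4
  · change prv D (x.1 + dv x.2 + dv (x.2 + 1), x.2 - 1) = x
    unfold prv
    simp only [sub_add_cancel, dv_sub_one]
    have e1 : x.1 + dv x.2 + dv (x.2 + 1) - dv x.2 = x.1 + dv (x.2 + 1) := by abel
    have e2 : x.1 + dv x.2 + dv (x.2 + 1) + -dv (x.2 + 1) - dv x.2 = x.1 := by abel
    rw [e1, e2, if_pos h3, if_pos h1]
  · change prv D (x.1 + dv (x.2 + 1), x.2) = x
    unfold prv
    simp only [add_sub_cancel_right]
    rw [if_pos h1, if_neg]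
    have : x.1 + dv (x.2 + 1) + dv x.2 - dv (x.2 + 1) = x.1 + dv x.2 := by abel
    rw [this]; exact h2
  · change prv D (x.1, x.2 + 1) = x
    unfold prv
    simp only [dv_add_two, sub_neg_eq_add]
    rw [if_neg h2]
    ext <;> simp

theorem nxt_inj {D : Finset Cell} {x y : Edg} (hx : IsBd D x) (hy : IsBd D y)
    (h : nxt D x = nxt D y) : x = y := by
  rw [← prv_nxt hx, ← prv_nxt hy, h]

/-- The finite set of boundary edges. -/
def bdE (D : Finset Cell) : Finset Edg :=
  (D ×ˢ (Finset.univ : Finset (Fin 4))).filter (fun x => x.1 + dv x.2 ∉ D)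

theorem mem_bdE {D : Finset Cell} {x : Edg} : x ∈ bdE D ↔ IsBd D x := by
  simp only [bdE, Finset.mem_filter, Finset.mem_product, Finset.mem_univ, and_true]
  exact Iff.rfl

theorem nxt_mem {D : Finset Cell} {x : Edg} (h : x ∈ bdE D) : nxt D x ∈ bdE D :=
  mem_bdE.2 (nxt_bd (mem_bdE.1 h))

theorem iter_mem {D : Finset Cell} {x : Edg} (h : x ∈ bdE D) (i : ℕ) :
    (nxt D)^[i] x ∈ bdE D := by
  induction i with
  | zero => exact h
  | succ i ih => rw [Function.iterate_succ_apply']; exact nxt_mem ih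

theorem mem_periodic {D : Finset Cell} {x : Edg} (h : x ∈ bdE D) :
    x ∈ Function.periodicPts (nxt D) := by
  let f : {x // x ∈ bdE D} → {x // x ∈ bdE D} := fun y => ⟨nxt D y.1, nxt_mem y.2⟩
  have hf : Function.Injective f := by
    intro y z hyz
    have : nxt D y.1 = nxt D z.1 := congrArg Subtype.val hyz
    exact Subtype.ext (nxt_inj (mem_bdE.1 y.2) (mem_bdE.1 z.2) this)
  have hit : ∀ (i : ℕ) (y : {x // x ∈ bdE D}), ((f^[i] y).1) = (nxt D)^[i] y.1 := by
    intro i y
    induction i with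
    | zero => rfl
    | succ i ih => rw [Function.iterate_succ_apply', Function.iterate_succ_apply', ← ih]
  obtain ⟨n, hn, hp⟩ := hf.mem_periodicPts ⟨x, h⟩
  refine ⟨n, hn, ?_⟩
  have := congrArg Subtype.val hp
  rw [hit] at this
  exact this

/-- Length of the boundary cycle through an edge. -/
noncomputable def per (D : Finset Cell) (x : Edg) : ℕ := Function.minimalPeriod (nxt D) x

/-- The boundary cycle through an edge. -/
noncomputable def orb (D : Finset Cell) (x : Edg) : Finset Edg :=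
  (Finset.range (per D x)).image (fun i => (nxt D)^[i] x)

theorem per_pos {D : Finset Cell} {x : Edg} (h : x ∈ bdE D) : 0 < per D x :=
  Function.minimalPeriod_pos_of_mem_periodicPts (mem_periodic h)

theorem card_orb (D : Finset Cell) (x : Edg) : (orb D x).card = per D x := by
  unfold orb
  rw [Finset.card_image_of_injOn, Finset.card_range]
  intro i hi j hj hij
  have hi' : i ∈ Set.Iio (Function.minimalPeriod (nxt D) x) := by
    simpa [per] using hi
  have hj' : j ∈ Set.Iio (Function.minimalPeriod (nxt D) x) := by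
    simpa [per] using hj
  exact Function.iterate_injOn_Iio_minimalPeriod hi' hj' hij

theorem mem_orb_iff {D : Finset Cell} {x y : Edg} (h : x ∈ bdE D) :
    y ∈ orb D x ↔ ∃ i, (nxt D)^[i] x = y := by
  unfold orb
  rw [Finset.mem_image]
  constructor
  · rintro ⟨i, _, hi⟩
    exact ⟨i, hi⟩
  · rintro ⟨i, hi⟩
    refine ⟨i % per D x, ?_, ?_⟩
    · rw [Finset.mem_range]
      exact Nat.mod_lt _ (per_pos h)
    · rw [← hi]
      exact Function.iterate_mod_minimalPeriod_eq

theorem self_mem_orb {D : Finset Cell} {x : Edg} (h : x ∈ bdE D) : x ∈ orb D x :=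
  (mem_orb_iff h).2 ⟨0, rfl⟩

theorem orb_sub {D : Finset Cell} {x : Edg} (h : x ∈ bdE D) : orb D x ⊆ bdE D := by
  intro y hy
  obtain ⟨i, rfl⟩ := (mem_orb_iff h).1 hy
  exact iter_mem h i

theorem nxt_mem_orb {D : Finset Cell} {x y : Edg} (h : x ∈ bdE D) (hy : y ∈ orb D x) :
    nxt D y ∈ orb D x := by
  obtain ⟨i, rfl⟩ := (mem_orb_iff h).1 hy
  refine (mem_orb_iff h).2 ⟨i + 1, ?_⟩
  rw [Function.iterate_succ_apply']

theorem orb_eq {D : Finset Cell} {x y : Edg} (h : x ∈ bdE D) (hy : y ∈ orb D x) :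
    orb D y = orb D x := by
  have hyE := orb_sub h hy
  obtain ⟨i, hi⟩ := (mem_orb_iff h).1 hy
  -- x is reachable from y
  have hx : ∃ j, (nxt D)^[j] y = x := by
    obtain ⟨n, hn, hp⟩ := mem_periodic h
    -- choose a multiple of n at least i
    refine ⟨n * (i + 1) - i, ?_⟩
    have hle : i ≤ n * (i + 1) := by nlinarith
    rw [← hi, ← Function.iterate_add_apply, Nat.sub_add_cancel hle, Nat.mul_comm]
    exact hp.const_mul (i + 1)
  obtain ⟨j, hj⟩ := hx
  ext z
  rw [mem_orb_iff h, mem_orb_iff hyE]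
  constructor
  · rintro ⟨a, ha⟩
    refine ⟨a + i, ?_⟩
    rw [Function.iterate_add_apply, hi, ha]
  · rintro ⟨a, ha⟩
    refine ⟨a + j, ?_⟩
    rw [Function.iterate_add_apply, hj, ha]

theorem per_eq {D : Finset Cell} {x y : Edg} (h : x ∈ bdE D) (hy : y ∈ orb D x) :
    per D y = per D x := by
  rw [← card_orb, ← card_orb, orb_eq h hy]

/-- A set of boundary edges that is closed under `nxt`. -/
def Closed (D : Finset Cell) (A : Finset Edg) : Prop := A ⊆ bdE D ∧ ∀ x ∈ A, nxt D x ∈ A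

theorem closed_orb {D : Finset Cell} {x : Edg} (h : x ∈ bdE D) : Closed D (orb D x) :=
  ⟨orb_sub h, fun _ hy => nxt_mem_orb h hy⟩

theorem closed_bdE (D : Finset Cell) : Closed D (bdE D) := ⟨subset_rfl, fun _ h => nxt_mem h⟩

theorem Closed.image {D : Finset Cell} {A : Finset Edg} (h : Closed D A) :
    A.image (nxt D) = A := by
  apply Finset.eq_of_subset_of_card_le
  · intro y hy
    obtain ⟨x, hx, rfl⟩ := Finset.mem_image.1 hy
    exact h.2 x hx
  · rw [Finset.card_image_of_injOn]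
    intro x hx y hy hxy
    exact nxt_inj (mem_bdE.1 (h.1 hx)) (mem_bdE.1 (h.1 hy)) hxy

theorem Closed.sum_nxt {D : Finset Cell} {A : Finset Edg} (h : Closed D A) (g : Edg → ℤ) :
    ∑ x ∈ A, g (nxt D x) = ∑ x ∈ A, g x := by
  have h1 : ∑ x ∈ A.image (nxt D), g x = ∑ x ∈ A, g (nxt D x) := by
    apply Finset.sum_image
    intro x hx y hy hxy
    exact nxt_inj (mem_bdE.1 (h.1 hx)) (mem_bdE.1 (h.1 hy)) hxy
  rw [← h1, h.image]

end Pool.Agent.Work.MP_74ecad_co
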