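import Pool.Agent.Work.MP_74ecad_co.TangleCells

namespace Pool.Agent.Work.MP_74ecad_co

/-- Steps with at least one swap. -/
def Used (D : Finset Cell) (s : ℕ) : Prop := (slice D (s : ℤ)).Nonempty

instance (D : Finset Cell) : DecidablePred (Used D) := fun s =>
  inferInstanceAs (Decidable (slice D (s : ℤ)).Nonempty)

/-- New time of a step after removal of the empty steps. -/
def rk (D : Finset Cell) (t : ℕ) : ℕ := Nat.count (Used D) t

/-- Removal of the empty steps. -/
def comp (D : Finset Cell) : Finset Cell :=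
  D.image (fun c => (c.1, (rk D c.2.toNat : ℤ)))

theorem used_of_mem {D : Finset Cell} {p : ℤ} {t : ℕ} (h : (p, (t : ℤ)) ∈ D) : Used D t :=
  ⟨p, mem_slice.2 h⟩

theorem mem_comp {D : Finset Cell} (h0 : ∀ c ∈ D, 0 ≤ c.2) {c : Cell} :
    c ∈ comp D ↔ ∃ (t : ℕ), (c.1, (t : ℤ)) ∈ D ∧ c.2 = (rk D t : ℤ) := by
  unfold comp
  rw [Finset.mem_image]
  constructor
  · rintro ⟨⟨p, s⟩, h, rfl⟩
    have hs := h0 _ h
    simp only at hs
    refine ⟨s.toNat, ?_, rfl⟩
    have : ((s.toNat : ℕ) : ℤ) = s := by omega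
    rw [this]
    exact h
  · rintro ⟨t, h1, h2⟩
    refine ⟨(c.1, (t : ℤ)), h1, ?_⟩
    simp only [Int.toNat_natCast]
    rw [← h2]

theorem mem_comp_used {D : Finset Cell} (h0 : ∀ c ∈ D, 0 ≤ c.2) {t : ℕ} (ht : Used D t) (p : ℤ) :
    (p, (rk D t : ℤ)) ∈ comp D ↔ (p, (t : ℤ)) ∈ D := by
  rw [mem_comp h0]
  constructor
  · rintro ⟨s, h1, h2⟩
    simp only [Nat.cast_inj] at h1 h2
    have : t = s := Nat.count_injective ht (used_of_mem h1) h2
    rw [this]
    exact h1
  · intro h
    exact ⟨t, h, rfl⟩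

theorem rk_succ_used {D : Finset Cell} {t : ℕ} (h : Used D t) : rk D (t + 1) = rk D t + 1 := by
  unfold rk
  rw [Nat.count_succ, if_pos h]

theorem rk_succ_not {D : Finset Cell} {t : ℕ} (h : ¬ Used D t) : rk D (t + 1) = rk D t := by
  unfold rk
  rw [Nat.count_succ, if_neg h, add_zero]

theorem comp_nonOv {D : Finset Cell} (h0 : ∀ c ∈ D, 0 ≤ c.2) (hD : NonOv D) :
    NonOv (comp D) := by
  intro p t h h'
  obtain ⟨s, h1, h2⟩ := (mem_comp h0).1 h
  simp only at h1 h2
  rw [h2, mem_comp_used h0 (used_of_mem h1)] at h'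
  exact hD _ _ h1 h'

theorem comp_time {D : Finset Cell} (h0 : ∀ c ∈ D, 0 ≤ c.2) : ∀ c ∈ comp D, 0 ≤ c.2 := by
  intro c h
  obtain ⟨s, _, h2⟩ := (mem_comp h0).1 h
  rw [h2]
  omega

theorem comp_lt {D : Finset Cell} {T : ℕ} (h0 : ∀ c ∈ D, 0 ≤ c.2) (hT : ∀ c ∈ D, c.2 < T) :
    ∀ c ∈ comp D, c.2 < (rk D T : ℕ) := by
  intro c h
  obtain ⟨s, h1, h2⟩ := (mem_comp h0).1 h
  rw [h2]
  have h3 := hT _ h1
  simp only [Nat.cast_lt] at h3
  have h4 : rk D (s + 1) ≤ rk D T := Nat.count_monotone _ h3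
  rw [rk_succ_used (used_of_mem h1)] at h4
  exact_mod_cast h4

theorem comp_nonempty {D : Finset Cell} {T : ℕ} (h0 : ∀ c ∈ D, 0 ≤ c.2) :
    ∀ s < rk D T, (slice (comp D) (s : ℤ)).Nonempty := by
  induction T with
  | zero =>
    intro s hs
    simp [rk] at hs
  | succ T ih =>
    intro s hs
    by_cases hT : Used D T
    · rw [rk_succ_used hT] at hs
      rcases Nat.lt_or_ge s (rk D T) with h | h
      · exact ih s h
      · have hs' : s = rk D T := by omega
        rw [hs']
        obtain ⟨p, hp⟩ := hT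
        exact ⟨p, mem_slice.2 ((mem_comp_used h0 ⟨p, hp⟩ p).2 (mem_slice.1 hp))⟩
    · rw [rk_succ_not hT] at hs
      exact ih s hs

theorem comp_pth {D : Finset Cell} (h0 : ∀ c ∈ D, 0 ≤ c.2) (x : ℤ) (t : ℕ) :
    pth (comp D) x (rk D t) = pth D x t := by
  induction t with
  | zero => simp [rk, pth]
  | succ t ih =>
    by_cases h : Used D t
    · rw [rk_succ_used h]
      change mvp (comp D) (rk D t) (pth (comp D) x (rk D t)) = mvp D t (pth D x t)
      rw [ih]
      unfold mvp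
      simp only [mem_comp_used h0 h]
    · rw [rk_succ_not h, ih]
      change _ = mvp D t (pth D x t)
      unfold mvp
      rw [if_neg (fun h1 => h (used_of_mem h1)), if_neg (fun h1 => h (used_of_mem h1))]

theorem comp_starts {D : Finset Cell} (h0 : ∀ c ∈ D, 0 ≤ c.2) :
    starts (bdE (comp D)) ≤ starts (bdE D) := by
  classical
  have key : ∀ b : Bool, ((bdE (comp D)).filter (fun x => sg b x = 1)).card ≤
      ((bdE D).filter (fun x => sg b x = 1)).card := by
    intro b
    refine (Finset.card_le_card (t := ((bdE D).filter (fun x => sg b x = 1)).image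
      (fun x : Edg => ((x.1.1, (rk D x.1.2.toNat : ℤ)), x.2))) ?_).trans Finset.card_image_le
    rintro ⟨⟨p, s⟩, k⟩ hx
    rw [Finset.mem_filter, mem_bdE] at hx
    obtain ⟨⟨h1, h2⟩, h3⟩ := hx
    obtain ⟨t, h4, h5⟩ := (mem_comp h0).1 h1
    simp only at h4 h5
    rw [Finset.mem_image]
    refine ⟨((p, (t : ℤ)), k), ?_, by simp [h5]⟩
    rw [Finset.mem_filter, mem_bdE]
    refine ⟨⟨h4, fun h6 => h2 ?_⟩, ?_⟩
    · -- the neighbour one step earlier
      have hk : (dv k).2 = -1 := by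
        revert h3
        cases b <;> fin_cases k <;> simp [sg, dv]
      have h7 : ((p, (t : ℤ)) + dv k).2 = (t : ℤ) - 1 := by
        rw [Prod.snd_add, hk]
        ring
      have h8 := h0 _ h6
      rw [h7] at h8
      obtain ⟨r, rfl⟩ : ∃ r, t = r + 1 := ⟨t - 1, by omega⟩
      have h9 : (p, ((r + 1 : ℕ) : ℤ)) + dv k = (p + (dv k).1, (r : ℤ)) := by
        apply Prod.ext
        · rfl
        · rw [h7]; push_cast; ring
      rw [h9] at h6
      have h10 := (mem_comp_used h0 (used_of_mem h6) _).2 h6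
      have h11 : (p, s) + dv k = (p + (dv k).1, (rk D r : ℤ)) := by
        apply Prod.ext
        · rfl
        · rw [Prod.snd_add, hk, h5, rk_succ_used (used_of_mem h6)]
          push_cast
          ring
      change (p, s) + dv k ∈ comp D
      rw [h11]
      exact h10
    · rw [← h3]
      exact sg_congr b rfl
  exact Nat.add_le_add (key false) (key true)

end Pool.Agent.Work.MP_74ecad_co
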