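import Pool.Agent.Work.MP_74ecad_co.Defs
import Pool.Agent.Work.MP_74ecad_co.Bound

namespace Pool.Agent.Work.MP_74ecad_co

/-- Number of starts of runs in a step with swaps `B` after a step with swaps `A`. -/
def cost (A B : Finset ℤ) : ℕ :=
  (B.filter (fun p => p - 1 ∉ A)).card + (B.filter (fun p => p + 1 ∉ A)).card

theorem cost_ge (A B : Finset ℤ) (hB : B.Nonempty) : B.card + 1 ≤ cost A B + A.card := by
  classical
  unfold cost
  have h1 := Finset.card_filter_add_card_filter_not (s := B) (fun p => p - 1 ∈ A)
  have h2 := Finset.card_filter_add_card_filter_not (s := B) (fun p => p + 1 ∈ A)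
  have hU : (A ∪ B).Nonempty := hB.mono Finset.subset_union_right
  obtain ⟨M, hM⟩ : ∃ M, M = (A ∪ B).max' hU := ⟨_, rfl⟩
  have hmax : ∀ p ∈ A ∪ B, p ≤ M := by
    intro p hp
    rw [hM]
    exact Finset.le_max' _ _ hp
  have hMmem : M ∈ A ∪ B := by rw [hM]; exact Finset.max'_mem _ _
  have h3 : (B.filter (fun p => p - 1 ∈ A)).card + (B.filter (fun p => p + 1 ∈ A)).card + 1 ≤
      A.card + B.card := by
    by_cases hMB : M ∈ B
    · have h4 : (B.filter (fun p => p + 1 ∈ A)).card ≤ (B.erase M).card := by
        apply Finset.card_le_card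
        intro p hp
        rw [Finset.mem_filter] at hp
        rw [Finset.mem_erase]
        refine ⟨?_, hp.1⟩
        rintro rfl
        have := hmax _ (Finset.mem_union_left _ hp.2)
        omega
      have h5 : (B.filter (fun p => p - 1 ∈ A)).card ≤ A.card := by
        apply Finset.card_le_card_of_injOn (fun p => p - 1)
        · intro p hp
          exact (Finset.mem_filter.1 hp).2
        · intro p _ q _ h
          simp only at h
          omega
      rw [Finset.card_erase_of_mem hMB] at h4
      have : 0 < B.card := Finset.card_pos.2 hB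
      omega
    · have hMA : M ∈ A := by
        rcases Finset.mem_union.1 hMmem with h | h
        · exact h
        · exact absurd h hMB
      have h4 : (B.filter (fun p => p - 1 ∈ A)).card ≤ (A.erase M).card := by
        apply Finset.card_le_card_of_injOn (fun p => p - 1)
        · intro p hp
          have hp' := Finset.mem_filter.1 hp
          rw [Finset.mem_coe, Finset.mem_erase]
          refine ⟨?_, hp'.2⟩
          intro h
          have h' : p - 1 = M := h
          have := hmax p (Finset.mem_union_right _ hp'.1)
          omega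
        · intro p _ q _ h
          simp only at h
          omega
      have h5 : (B.filter (fun p => p + 1 ∈ A)).card ≤ B.card := Finset.card_filter_le _ _
      rw [Finset.card_erase_of_mem hMA] at h4
      have : 0 < A.card := Finset.card_pos.2 ⟨M, hMA⟩
      omega
  omega

/-- The positions of the cells at a given time. -/
def slice (D : Finset Cell) (t : ℤ) : Finset ℤ := (D.filter (fun c => c.2 = t)).image Prod.fst

theorem mem_slice {D : Finset Cell} {t p : ℤ} : p ∈ slice D t ↔ (p, t) ∈ D := by
  unfold slice
  rw [Finset.mem_image]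
  constructor
  · rintro ⟨⟨p', t'⟩, h, rfl⟩
    rw [Finset.mem_filter] at h
    obtain ⟨h1, h2⟩ := h
    simp only at h2
    rw [← h2]
    exact h1
  · intro h
    exact ⟨(p, t), Finset.mem_filter.2 ⟨h, rfl⟩, rfl⟩

theorem starts_eq_sum {D : Finset Cell} {T : ℕ} (h0 : ∀ c ∈ D, 0 ≤ c.2) (hT : ∀ c ∈ D, c.2 < T) :
    starts (bdE D) = ∑ t ∈ Finset.range T, cost (slice D ((t : ℤ) - 1)) (slice D t) := by
  classical
  unfold starts cost
  rw [Finset.sum_add_distrib, add_comm]
  congr 1
  · rw [Finset.card_eq_sum_card_fiberwise (f := fun x : Edg => x.1.2.toNat)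
      (t := Finset.range T)]
    · apply Finset.sum_congr rfl
      intro t _
      apply Finset.card_bij' (fun (x : Edg) _ => x.1.1) (fun (p : ℤ) _ => (((p, (t : ℤ)), 2) : Edg))
      · rintro ⟨⟨p, s⟩, k⟩ hx
        simp only [Finset.mem_filter, mem_bdE, IsBd] at hx
        obtain ⟨⟨⟨h1, h2⟩, h3⟩, h4⟩ := hx
        have hs : s = t := by have := h0 _ h1; simp only at this h4; omega
        subst hs
        have hk : k = 2 := by
          revert h3
          fin_cases k <;> simp [sg]
        subst hk
        rw [Finset.mem_filter, mem_slice, mem_slice]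
        exact ⟨h1, by simpa [dv, sub_eq_add_neg] using h2⟩
      · intro p hp
        rw [Finset.mem_filter, mem_slice, mem_slice] at hp
        simp only [Finset.mem_filter, mem_bdE, IsBd]
        refine ⟨⟨⟨hp.1, by simpa [dv, sub_eq_add_neg] using hp.2⟩, rfl⟩, by simp⟩
      · rintro ⟨⟨p, s⟩, k⟩ hx
        simp only [Finset.mem_filter, mem_bdE, IsBd] at hx
        obtain ⟨⟨⟨h1, h2⟩, h3⟩, h4⟩ := hx
        have hs : s = t := by have := h0 _ h1; simp only at this h4; omega
        subst hs
        have hk : k = 2 := by
          revert h3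
          fin_cases k <;> simp [sg]
        subst hk
        rfl
      · intro p _
        rfl
    · intro x hx
      have h1 := (mem_bdE.1 (Finset.mem_filter.1 hx).1).1
      have h2 := h0 _ h1
      have h3 := hT _ h1
      rw [Finset.mem_coe, Finset.mem_range]
      simp only
      omega
  · rw [Finset.card_eq_sum_card_fiberwise (f := fun x : Edg => x.1.2.toNat)
      (t := Finset.range T)]
    · apply Finset.sum_congr rfl
      intro t _
      apply Finset.card_bij' (fun (x : Edg) _ => x.1.1) (fun (p : ℤ) _ => (((p, (t : ℤ)), 3) : Edg))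
      · rintro ⟨⟨p, s⟩, k⟩ hx
        simp only [Finset.mem_filter, mem_bdE, IsBd] at hx
        obtain ⟨⟨⟨h1, h2⟩, h3⟩, h4⟩ := hx
        have hs : s = t := by have := h0 _ h1; simp only at this h4; omega
        subst hs
        have hk : k = 3 := by
          revert h3
          fin_cases k <;> simp [sg]
        subst hk
        rw [Finset.mem_filter, mem_slice, mem_slice]
        exact ⟨h1, by simpa [dv, sub_eq_add_neg] using h2⟩
      · intro p hp
        rw [Finset.mem_filter, mem_slice, mem_slice] at hp
        simp only [Finset.mem_filter, mem_bdE, IsBd]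
        refine ⟨⟨⟨hp.1, by simpa [dv, sub_eq_add_neg] using hp.2⟩, rfl⟩, by simp⟩
      · rintro ⟨⟨p, s⟩, k⟩ hx
        simp only [Finset.mem_filter, mem_bdE, IsBd] at hx
        obtain ⟨⟨⟨h1, h2⟩, h3⟩, h4⟩ := hx
        have hs : s = t := by have := h0 _ h1; simp only at this h4; omega
        subst hs
        have hk : k = 3 := by
          revert h3
          fin_cases k <;> simp [sg]
        subst hk
        rfl
      · intro p _
        rfl
    · intro x hx
      have h1 := (mem_bdE.1 (Finset.mem_filter.1 hx).1).1
      have h2 := h0 _ h1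
      have h3 := hT _ h1
      rw [Finset.mem_coe, Finset.mem_range]
      simp only
      omega

/-- If every step has a swap, then the number of steps is at most the number of starts. -/
theorem time_le_starts {D : Finset Cell} {T : ℕ} (h0 : ∀ c ∈ D, 0 ≤ c.2)
    (hT : ∀ c ∈ D, c.2 < T) (hne : ∀ t < T, (slice D (t : ℤ)).Nonempty) :
    T ≤ starts (bdE D) := by
  rw [starts_eq_sum h0 hT]
  have key : ∀ s ≤ T, s + (slice D ((s : ℤ) - 1)).card ≤
      ∑ t ∈ Finset.range s, cost (slice D ((t : ℤ) - 1)) (slice D t) := by
    intro s
    induction s with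
    | zero =>
      intro _
      have : slice D (((0 : ℕ) : ℤ) - 1) = ∅ := by
        rw [Finset.eq_empty_iff_forall_notMem]
        intro p hp
        rw [mem_slice] at hp
        have := h0 _ hp
        simp only at this
        omega
      rw [this]
      simp
    | succ s ih =>
      intro hs
      rw [Finset.sum_range_succ]
      have h1 := ih (by omega)
      have h2 := cost_ge (slice D ((s : ℤ) - 1)) (slice D s) (hne s (by omega))
      have h3 : ((s + 1 : ℕ) : ℤ) - 1 = s := by push_cast; ring
      rw [h3]
      omega
  have := key T le_rfl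
  omega

end Pool.Agent.Work.MP_74ecad_co
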