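import Pool.Agent.Work.MP_74ecad_co.Orbits

namespace Pool.Agent.Work.MP_74ecad_co

/-- Walk with prescribed turns. -/
def walk (w : ℕ → Fin 3) (r : Edg) : ℕ → Edg
  | 0 => r
  | i + 1 => stepE (walk w r i) (w i)

/-- Extension of a finite word. -/
def ext {l : ℕ} (w : Fin l → Fin 3) (i : ℕ) : Fin 3 := if h : i < l then w ⟨i, h⟩ else 0

/-- The set of edges visited by a walk. -/
def trace (l : ℕ) (r : Edg) (w : Fin l → Fin 3) : Finset Edg :=
  (Finset.range l).image (walk (ext w) r)

theorem orb_eq_trace (D : Finset Cell) (x : Edg) :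
    orb D x = trace (per D x) x (fun i => turn D ((nxt D)^[i.val] x)) := by
  unfold orb trace
  apply Finset.image_congr
  intro i hi
  have hw : ∀ j, j < per D x → ext (fun i : Fin (per D x) => turn D ((nxt D)^[i.val] x)) j =
      turn D ((nxt D)^[j] x) := by
    intro j hj
    unfold ext
    rw [dif_pos hj]
  generalize ext (fun i : Fin (per D x) => turn D ((nxt D)^[i.val] x)) = w at hw ⊢
  have key : ∀ j, j ≤ per D x → walk w x j = (nxt D)^[j] x := by
    intro j
    induction j with
    | zero => intro _; rfl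
    | succ j ih =>
      intro hj
      rw [Function.iterate_succ_apply']
      change stepE (walk w x j) (w j) = _
      rw [ih (by omega), hw j (by omega)]
      rfl
  have hi' : i < per D x := by simpa using hi
  exact (key i hi'.le).symm

/-- All possible boundary cycles of length at most `L` that start in the box `B`. -/
noncomputable def cyc (B : Finset Edg) (l : ℕ) : Finset (Finset Edg) :=
  ((B ×ˢ (Finset.univ : Finset (Fin l → Fin 3))).image (fun rw => trace l rw.1 rw.2)).filter
    (fun C => C.card = l)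

theorem card_cyc (B : Finset Edg) (l : ℕ) : (cyc B l).card ≤ B.card * 3 ^ l := by
  unfold cyc
  refine (Finset.card_filter_le _ _).trans (Finset.card_image_le.trans ?_)
  rw [Finset.card_product, Finset.card_univ, Fintype.card_fun, Fintype.card_fin, Fintype.card_fin]

/-- All possible boundary cycles of length at most `L`. -/
noncomputable def allCyc (B : Finset Edg) (L : ℕ) : Finset (Finset Edg) :=
  (Finset.range (L + 1)).biUnion (cyc B)

theorem orb_mem_allCyc {D : Finset Cell} {B : Finset Edg} {L : ℕ} (hB : bdE D ⊆ B)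
    (hL : (bdE D).card ≤ L) {x : Edg} (hx : x ∈ bdE D) : orb D x ∈ allCyc B L := by
  classical
  unfold allCyc
  rw [Finset.mem_biUnion]
  refine ⟨per D x, ?_, ?_⟩
  · rw [Finset.mem_range, ← card_orb]
    have := Finset.card_le_card (orb_sub hx)
    omega
  · unfold cyc
    rw [Finset.mem_filter]
    refine ⟨?_, card_orb D x⟩
    rw [Finset.mem_image]
    exact ⟨(x, fun i => turn D ((nxt D)^[i.val] x)),
      Finset.mem_product.2 ⟨hB hx, Finset.mem_univ _⟩, (orb_eq_trace D x).symm⟩

/-- Weight of a boundary cycle. -/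
noncomputable def wt (y : ℝ) (C : Finset Edg) : ℝ := y * (1 / 6) ^ C.card

theorem wt_nonneg {y : ℝ} (hy : 0 ≤ y) (C : Finset Edg) : 0 ≤ wt y C := by
  unfold wt
  positivity

theorem sum_wt_le {y : ℝ} (hy : 0 ≤ y) (B : Finset Edg) (L : ℕ) :
    ∑ C ∈ allCyc B L, wt y C ≤ 2 * y * B.card := by
  classical
  unfold allCyc
  rw [Finset.sum_biUnion]
  · have h1 : ∀ l ∈ Finset.range (L + 1), ∑ C ∈ cyc B l, wt y C ≤
        (y * B.card) * (1 / 2 : ℝ) ^ l := by
      intro l _
      have h2 : ∑ C ∈ cyc B l, wt y C = (cyc B l).card * (y * (1 / 6 : ℝ) ^ l) := by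
        rw [Finset.sum_congr rfl (g := fun _ => y * (1 / 6 : ℝ) ^ l), Finset.sum_const,
          nsmul_eq_mul]
        intro C hC
        unfold wt
        rw [(Finset.mem_filter.1 hC).2]
      rw [h2]
      have h3 : ((cyc B l).card : ℝ) ≤ B.card * 3 ^ l := by exact_mod_cast card_cyc B l
      have h4 : (0 : ℝ) ≤ y * (1 / 6 : ℝ) ^ l := by positivity
      calc ((cyc B l).card : ℝ) * (y * (1 / 6 : ℝ) ^ l)
          ≤ (B.card * 3 ^ l) * (y * (1 / 6 : ℝ) ^ l) := mul_le_mul_of_nonneg_right h3 h4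
        _ = (y * B.card) * ((3 : ℝ) ^ l * (1 / 6 : ℝ) ^ l) := by ring
        _ = (y * B.card) * (1 / 2 : ℝ) ^ l := by
            rw [← mul_pow]
            norm_num
    refine (Finset.sum_le_sum h1).trans ?_
    rw [← Finset.mul_sum]
    have h5 := sum_geometric_two_le (L + 1)
    have h6 : (0 : ℝ) ≤ y * B.card := by positivity
    calc y * B.card * ∑ i ∈ Finset.range (L + 1), (1 / 2 : ℝ) ^ i
        ≤ y * B.card * 2 := mul_le_mul_of_nonneg_left h5 h6
      _ = 2 * y * B.card := by ring
  · intro l _ l' _ hne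
    change Disjoint (cyc B l) (cyc B l')
    rw [Finset.disjoint_left]
    intro C hC hC'
    exact hne ((Finset.mem_filter.1 hC).2.symm.trans (Finset.mem_filter.1 hC').2)

theorem bdE_eq_biUnion (D : Finset Cell) :
    ((bdE D).image (orb D)).biUnion id = bdE D := by
  classical
  ext x
  rw [Finset.mem_biUnion]
  constructor
  · rintro ⟨C, hC, hx⟩
    obtain ⟨y, hy, rfl⟩ := Finset.mem_image.1 hC
    exact orb_sub hy hx
  · intro hx
    exact ⟨orb D x, Finset.mem_image_of_mem _ hx, self_mem_orb hx⟩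

theorem eq_of_bdE {D D' : Finset Cell} (h : ∀ c ∈ D, 0 ≤ c.2) (h' : ∀ c ∈ D', 0 ≤ c.2)
    (he : bdE D = bdE D') : D = D' := by
  ext c
  by_cases hc : -1 ≤ c.2
  · have h1 := W_mem false h (lin false c) c.2 hc
    have h2 := W_mem false h' (lin false c) c.2 hc
    rw [pt_lin] at h1 h2
    rw [he, h2] at h1
    by_cases h3 : c ∈ D <;> by_cases h4 : c ∈ D' <;> simp [h3, h4] at h1 ⊢
  · constructor
    · intro h3
      have := h c h3
      omega
    · intro h3
      have := h' c h3
      omega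

/-- There are few sets of cells with few boundary cycles. -/
theorem count_bound (B : Finset Edg) (L k0 : ℕ) (S : Finset (Finset Cell))
    (hS : ∀ D ∈ S, (∀ c ∈ D, 0 ≤ c.2) ∧ bdE D ⊆ B ∧ (bdE D).card ≤ L ∧ ncyc D (bdE D) ≤ k0)
    {y : ℝ} (hy : 0 < y) (hy1 : y ≤ 1) :
    (S.card : ℝ) * (y ^ k0 * (1 / 6) ^ L) ≤ Real.exp (2 * y * B.card) := by
  classical
  let X : Finset Cell → Finset (Finset Edg) := fun D => (bdE D).image (orb D)
  have h1 : ∀ D ∈ S, y ^ k0 * (1 / 6 : ℝ) ^ L ≤ ∏ C ∈ X D, wt y C := by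
    intro D hD
    obtain ⟨_, _, h2, h3⟩ := hS D hD
    unfold wt
    rw [Finset.prod_mul_distrib, Finset.prod_const, Finset.prod_pow_eq_pow_sum,
      ← card_eq_sum_orb (closed_bdE D)]
    have h4 : y ^ k0 ≤ y ^ (X D).card := pow_le_pow_of_le_one hy.le hy1 h3
    have h5 : (1 / 6 : ℝ) ^ L ≤ (1 / 6 : ℝ) ^ (bdE D).card :=
      pow_le_pow_of_le_one (by norm_num) (by norm_num) h2
    exact mul_le_mul h4 h5 (by positivity) (by positivity)
  have hinj : Set.InjOn X S := by
    intro D hD D' hD' hX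
    apply eq_of_bdE (hS D hD).1 (hS D' hD').1
    rw [← bdE_eq_biUnion D, ← bdE_eq_biUnion D']
    exact congrArg (fun Z : Finset (Finset Edg) => Z.biUnion id) hX
  calc (S.card : ℝ) * (y ^ k0 * (1 / 6) ^ L) = ∑ D ∈ S, y ^ k0 * (1 / 6 : ℝ) ^ L := by
        rw [Finset.sum_const, nsmul_eq_mul]
    _ ≤ ∑ D ∈ S, ∏ C ∈ X D, wt y C := Finset.sum_le_sum h1
    _ = ∑ Z ∈ S.image X, ∏ C ∈ Z, wt y C := by rw [Finset.sum_image hinj]
    _ ≤ ∑ Z ∈ (allCyc B L).powerset, ∏ C ∈ Z, wt y C := by
        apply Finset.sum_le_sum_of_subset_of_nonneg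
        · intro Z hZ
          obtain ⟨D, hD, rfl⟩ := Finset.mem_image.1 hZ
          obtain ⟨_, h6, h7, _⟩ := hS D hD
          rw [Finset.mem_powerset]
          intro C hC
          obtain ⟨x, hx, rfl⟩ := Finset.mem_image.1 hC
          exact orb_mem_allCyc h6 h7 hx
        · intro Z _ _
          exact Finset.prod_nonneg (fun C _ => wt_nonneg hy.le C)
    _ = ∏ C ∈ allCyc B L, (1 + wt y C) := (Finset.prod_one_add _).symm
    _ ≤ ∏ C ∈ allCyc B L, Real.exp (wt y C) := by
        apply Finset.prod_le_prod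
        · intro C _
          have := wt_nonneg hy.le C
          linarith
        · intro C _
          have := Real.add_one_le_exp (wt y C)
          linarith
    _ = Real.exp (∑ C ∈ allCyc B L, wt y C) := (Real.exp_sum _ _).symm
    _ ≤ Real.exp (2 * y * B.card) := Real.exp_le_exp.2 (sum_wt_le hy.le B L)

end Pool.Agent.Work.MP_74ecad_co
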