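import Mathlib

/-! Tangles performing permutations and their numbers of moves. -/

namespace Pool.Agent.Work.MP_74ecad_co

/-- A tangle of width `n`. Positions and elements are numbered from `0`; `perm t x` is the entry in
position `x` of the sequence after `t` steps, and `swaps t` is the set of swaps applied
simultaneously in step `t`, where the swap `p` exchanges the entries in positions `p` and `p+1`. -/
structure Tangle (n : ℕ) where
  /-- number of steps -/
  T : ℕ
  /-- the sequence of permutations -/
  perm : ℕ → Equiv.Perm (Fin n)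
  /-- the sets of swaps -/
  swaps : ℕ → Finset ℕ
  perm_zero : perm 0 = 1
  swaps_lt : ∀ t < T, ∀ p ∈ swaps t, p + 1 < n
  swaps_far : ∀ t < T, ∀ p ∈ swaps t, ∀ q ∈ swaps t, p < q → p + 2 ≤ q
  perm_swap : ∀ t < T, ∀ x y : Fin n, x.val ∈ swaps t → y.val = x.val + 1 →
    perm (t + 1) x = perm t y ∧ perm (t + 1) y = perm t x
  perm_fix : ∀ t < T, ∀ x : Fin n, x.val ∉ swaps t → (∀ p ∈ swaps t, p + 1 ≠ x.val) →
    perm (t + 1) x = perm t x

/-- The tangle ends with the permutation `π`. -/
def Tangle.Performs {n : ℕ} (τ : Tangle n) (π : Equiv.Perm (Fin n)) : Prop := τ.perm τ.T = π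

/-- The position of the element `i` after `t` steps. -/
def Tangle.pos {n : ℕ} (τ : Tangle n) (t : ℕ) (i : Fin n) : ℤ := ((τ.perm t).symm i).val

/-- The displacement of the element `i` in step `t`. -/
def Tangle.disp {n : ℕ} (τ : Tangle n) (i : Fin n) (t : ℕ) : ℤ := τ.pos (t + 1) i - τ.pos t i

/-- The number of moves of the path of `i`: the number of steps in which a move starts, that is,
steps `t` in which `i` is displaced and which are the first step or preceded by a step in which `i`
is displaced differently (or not at all). -/
def Tangle.moves {n : ℕ} (τ : Tangle n) (i : Fin n) : ℕ :=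
  ((Finset.range τ.T).filter
    (fun t => τ.disp i t ≠ 0 ∧ (t = 0 ∨ τ.disp i (t - 1) ≠ τ.disp i t))).card

/-- The total number of moves of a tangle. -/
def Tangle.totalMoves {n : ℕ} (τ : Tangle n) : ℕ := ∑ i, τ.moves i

end Pool.Agent.Work.MP_74ecad_co
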