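import Pool.Agent.Work.MP_74ecad_co.Compress
import Pool.Agent.Work.MP_74ecad_co.Count

namespace Pool.Agent.Work.MP_74ecad_co

/-- Final positions: the first `q` and the last `q` elements are exchanged, the middle is permuted
by `ρ`. -/
def mixFun (q M : ℕ) (ρ : Equiv.Perm (Fin M)) (i : Fin (q + M + q)) : Fin (q + M + q) :=
  if h1 : i.val < q then ⟨q + M + i.val, by omega⟩
  else if h2 : i.val < q + M then
    ⟨q + (ρ ⟨i.val - q, by omega⟩).val, by have := (ρ ⟨i.val - q, by omega⟩).2; omega⟩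
  else ⟨i.val - (q + M), by have := i.2; omega⟩

theorem mixFun_inj (q M : ℕ) (ρ : Equiv.Perm (Fin M)) : Function.Injective (mixFun q M ρ) := by
  intro i j h
  have hi := i.2
  have hj := j.2
  unfold mixFun at h
  have hρ : ∀ a : Fin M, (ρ a).val < M := fun a => (ρ a).2
  split_ifs at h with h1 h2 h3 h4 h5 h6 h7 h8 <;>
    simp only [Fin.mk.injEq] at h <;> apply Fin.ext
  · omega
  · have := hρ ⟨j.val - q, by omega⟩
    omega
  · omega
  · have := hρ ⟨i.val - q, by omega⟩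
    omega
  · have h10 : ρ ⟨i.val - q, by omega⟩ = ρ ⟨j.val - q, by omega⟩ := Fin.ext (by omega)
    have h11 := ρ.injective h10
    simp only [Fin.mk.injEq] at h11
    omega
  · have := hρ ⟨i.val - q, by omega⟩
    omega
  · omega
  · have := hρ ⟨j.val - q, by omega⟩
    omega
  · omega

/-- The permutation with final positions `mixFun`. -/
noncomputable def mix (q M : ℕ) (ρ : Equiv.Perm (Fin M)) : Equiv.Perm (Fin (q + M + q)) :=
  Equiv.ofBijective (mixFun q M ρ) (Finite.injective_iff_bijective.1 (mixFun_inj q M ρ))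

theorem mix_inj (q M : ℕ) {ρ ρ' : Equiv.Perm (Fin M)} (h : mix q M ρ = mix q M ρ') : ρ = ρ' := by
  apply Equiv.ext
  intro a
  have h1 := congrArg (fun e : Equiv.Perm (Fin (q + M + q)) => e ⟨q + a.val, by omega⟩) h
  simp only [mix, Equiv.ofBijective_apply, mixFun] at h1
  have h2 : ¬ (q + a.val < q) := by omega
  have h3 : q + a.val < q + M := by omega
  simp only [h2, h3, dite_true, dite_false, Fin.mk.injEq, Nat.add_sub_cancel_left] at h1
  apply Fin.ext
  have h4 : (⟨a.val, a.2⟩ : Fin M) = a := rfl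
  rw [h4] at h1
  omega

/-- The box of edges. -/
noncomputable def boxE (n : ℕ) : Finset Edg :=
  ((Finset.Ico (0 : ℤ) n) ×ˢ (Finset.Ico (0 : ℤ) ((4 * n : ℕ) : ℤ))) ×ˢ Finset.univ

theorem card_boxE (n : ℕ) : (boxE n).card = 16 * n ^ 2 := by
  unfold boxE
  rw [Finset.card_product, Finset.card_product, Int.card_Ico, Int.card_Ico, Finset.card_univ,
    Fintype.card_fin]
  simp only [sub_zero, Int.toNat_natCast]
  ring

/-- Data extracted from a tangle. -/
theorem extract {n : ℕ} (τ : Tangle n) (hτ : τ.totalMoves ≤ 4 * n) :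
    ∃ (D : Finset Cell) (T : ℕ), NonOv D ∧ (∀ c ∈ D, 0 ≤ c.2) ∧ (∀ c ∈ D, c.2 < T) ∧
      (∀ s < T, (slice D (s : ℤ)).Nonempty) ∧ starts (bdE D) ≤ τ.totalMoves ∧
      bdE D ⊆ boxE n ∧ (bdE D).card ≤ 8 * n ∧
      ∀ i : Fin n, pth D (i.val : ℤ) T = τ.pos τ.T i := by
  have h0 := τ.cells_time
  have hT := τ.cells_lt
  have hs := comp_starts h0
  rw [← τ.totalMoves_eq] at hs
  have hlt := comp_lt h0 hT
  have hne : ∀ s < rk τ.cells τ.T, (slice (comp τ.cells) (s : ℤ)).Nonempty := comp_nonempty h0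
  have hTs := time_le_starts (comp_time h0) hlt hne
  refine ⟨comp τ.cells, rk τ.cells τ.T, comp_nonOv h0 τ.nonOv, comp_time h0, hlt, hne, hs, ?_, ?_,
    ?_⟩
  · intro x hx
    have hx1 := (mem_bdE.1 hx).1
    have h1 := comp_time h0 _ hx1
    have h2 := hlt _ hx1
    obtain ⟨t, h3, h4⟩ := (mem_comp h0).1 hx1
    obtain ⟨p, t', h5, h6, h7⟩ := τ.exists_of_mem_cells h3
    simp only [Prod.mk.injEq] at h5
    have h8 := τ.swaps_lt _ h6 _ h7
    unfold boxE
    rw [Finset.mem_product, Finset.mem_product, Finset.mem_Ico, Finset.mem_Ico]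
    refine ⟨⟨⟨by omega, by omega⟩, h1, ?_⟩, Finset.mem_univ _⟩
    have : rk τ.cells τ.T ≤ 4 * n := by omega
    have h9 : ((rk τ.cells τ.T : ℕ) : ℤ) ≤ ((4 * n : ℕ) : ℤ) := by exact_mod_cast this
    omega
  · rw [card_eq_starts (closed_bdE _)]
    omega
  · intro i
    rw [comp_pth h0, τ.pth_eq i le_rfl]

theorem exists_large_n (q : ℕ) {δ : ℝ} (hδ : 0 < δ) : ∃ M : ℕ,
    4 * q ≤ q + M + q ∧ 4 * (q : ℝ) * Real.log ((q + M + q : ℕ) : ℝ) ≤ ((q + M + q : ℕ) : ℝ) ∧
      75 < δ / 4 * Real.log ((q + M + q : ℕ) : ℝ) := by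
  have ht : Filter.Tendsto (fun M : ℕ => ((q + M + q : ℕ) : ℝ)) Filter.atTop Filter.atTop := by
    apply tendsto_natCast_atTop_atTop.comp
    apply Filter.tendsto_atTop_mono (f := fun M : ℕ => M)
    · intro M
      change M ≤ q + M + q
      omega
    · exact Filter.tendsto_id
  have h1 : ∀ᶠ M : ℕ in Filter.atTop, 4 * q ≤ q + M + q := by
    filter_upwards [Filter.eventually_ge_atTop (4 * q)] with M hM
    omega
  have h2 : ∀ᶠ x : ℝ in Filter.atTop, 4 * (q : ℝ) * Real.log x ≤ x := by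
    have hc : (0 : ℝ) < 1 / (4 * q + 1) := by positivity
    have := Real.isLittleO_log_id_atTop.bound hc
    filter_upwards [this, Filter.eventually_ge_atTop (1 : ℝ)] with x hx hx1
    rw [Real.norm_of_nonneg (Real.log_nonneg hx1), id, Real.norm_of_nonneg (by linarith)] at hx
    have hlog := Real.log_nonneg hx1
    have h3 : (4 * (q : ℝ) + 1) * Real.log x ≤ x := by
      have h4 := mul_le_mul_of_nonneg_left hx (by positivity : (0 : ℝ) ≤ 4 * q + 1)
      have h5 : (4 * (q : ℝ) + 1) * (1 / (4 * q + 1) * x) = x := by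
        field_simp
      linarith
    linarith
  have h3 : ∀ᶠ x : ℝ in Filter.atTop, 75 < δ / 4 * Real.log x := by
    have : Filter.Tendsto (fun x : ℝ => δ / 4 * Real.log x) Filter.atTop Filter.atTop :=
      Real.tendsto_log_atTop.const_mul_atTop (by positivity)
    exact this.eventually_gt_atTop 75
  obtain ⟨M, hM⟩ := (h1.and ((ht.eventually h2).and (ht.eventually h3))).exists
  exact ⟨M, hM.1, hM.2.1, hM.2.2⟩

theorem log_fact_bound (M : ℕ) : (M : ℝ) * Real.log M - M ≤ Real.log (M.factorial : ℝ) := by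
  rcases Nat.eq_zero_or_pos M with h | h
  · subst h
    simp
  · have h1 := Real.pow_div_factorial_le_exp (x := (M : ℝ)) (by positivity) M
    have hM : (0 : ℝ) < M := by exact_mod_cast h
    have hf : (0 : ℝ) < (M.factorial : ℝ) := by exact_mod_cast M.factorial_pos
    have h2 := Real.log_le_log (by positivity) h1
    rw [Real.log_exp, Real.log_div (by positivity) (by positivity), Real.log_pow] at h2
    linarith

/-- For every `a < 4` some permutation needs more than `a n` moves. -/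
theorem lower_bound (a : ℝ) (ha : a < 4) : ∃ n : ℕ, 1 ≤ n ∧ ∃ π : Equiv.Perm (Fin n),
    ∀ τ : Tangle n, τ.Performs π → a * n < τ.totalMoves := by
  classical
  by_contra hcon
  push Not at hcon
  obtain ⟨δ, hδ⟩ : ∃ δ, δ = 4 - a := ⟨_, rfl⟩
  have hδ0 : 0 < δ := by rw [hδ]; linarith
  obtain ⟨κ, hκ⟩ := exists_nat_ge (96 / δ)
  have hκδ : 96 ≤ κ * δ := by
    rw [div_le_iff₀ hδ0] at hκ
    exact hκ
  have hκ1 : 1 ≤ κ := by
    rcases Nat.eq_zero_or_pos κ with h | h
    · rw [h] at hκδ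
      norm_num at hκδ
    · exact h
  obtain ⟨q, hq⟩ : ∃ q, q = κ ^ 2 := ⟨_, rfl⟩
  have hq1 : 1 ≤ q := by rw [hq]; exact Nat.one_le_pow _ _ hκ1
  obtain ⟨M, hM1, hM2, hM3⟩ := exists_large_n q hδ0
  have hnpos : 1 ≤ q + M + q := by omega
  have hch := fun ρ : Equiv.Perm (Fin M) => hcon (q + M + q) hnpos (mix q M ρ).symm
  choose τ hτ1 hτ2 using hch
  have hτ3 : ∀ ρ, (τ ρ).totalMoves ≤ 4 * (q + M + q) := by
    intro ρ
    have h1 := hτ2 ρ
    have h2 : a * ((q + M + q : ℕ) : ℝ) ≤ 4 * ((q + M + q : ℕ) : ℝ) :=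
      mul_le_mul_of_nonneg_right ha.le (by positivity)
    have h3 : ((τ ρ).totalMoves : ℝ) ≤ ((4 * (q + M + q) : ℕ) : ℝ) := by
      push_cast at h1 h2 ⊢
      linarith
    exact_mod_cast h3
  choose D T hD1 hD2 hD3 hD4 hD5 hD6 hD7 hD8 using fun ρ => extract (τ ρ) (hτ3 ρ)
  have hpos : ∀ (ρ : Equiv.Perm (Fin M)) (i : Fin (q + M + q)),
      pth (D ρ) (i.val : ℤ) (T ρ) = ((mixFun q M ρ i).val : ℤ) := by
    intro ρ i
    rw [hD8 ρ i, Tangle.pos, hτ1 ρ]
    rfl
  -- injectivity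
  have hinj : Function.Injective D := by
    intro ρ ρ' h
    have hT : T ρ = T ρ' := by
      rcases lt_trichotomy (T ρ) (T ρ') with h1 | h1 | h1
      · obtain ⟨p, hp⟩ := hD4 ρ' _ h1
        rw [mem_slice, ← h] at hp
        have := hD3 ρ _ hp
        simp at this
      · exact h1
      · obtain ⟨p, hp⟩ := hD4 ρ _ h1
        rw [mem_slice, h] at hp
        have := hD3 ρ' _ hp
        simp at this
    apply mix_inj q M
    apply Equiv.ext
    intro i
    have h1 := hpos ρ i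
    rw [h, hT, hpos ρ' i] at h1
    exact Fin.ext (by exact_mod_cast h1.symm)
  obtain ⟨n, hn⟩ : ∃ n, n = q + M + q := ⟨_, rfl⟩
  have hn' : (0 : ℝ) < n := by
    have : 0 < n := by omega
    exact_mod_cast this
  -- the number of boundary cycles is small
  have hcyc : ∀ ρ, ((ncyc (D ρ) (bdE (D ρ)) : ℕ) : ℝ) ≤ (1 - δ / 4) * n + 2 * q := by
    intro ρ
    have h1 := macro_bound (n := n) (hD1 ρ) (hD2 ρ) hκ1 (T := T ρ) (by
      intro x hx0 hxq
      obtain ⟨i, rfl⟩ := Int.eq_ofNat_of_zero_le hx0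
      have hiq : i < q := by
        have : (i : ℤ) < (q : ℤ) := by rw [hq]; push_cast; exact hxq
        exact_mod_cast this
      have h2 := hpos ρ ⟨i, by omega⟩
      simp only at h2
      rw [h2]
      unfold mixFun
      rw [dif_pos hiq]
      have h3 : ((κ : ℤ) ^ 2) = (q : ℤ) := by rw [hq]; push_cast; ring
      rw [h3]
      simp only
      omega) (by
      intro x hx0 hxn
      have h3 : ((κ : ℤ) ^ 2) = (q : ℤ) := by rw [hq]; push_cast; ring
      rw [h3] at hx0 ⊢
      have hx00 : 0 ≤ x := by omega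
      obtain ⟨i, rfl⟩ := Int.eq_ofNat_of_zero_le hx00
      have h2 := hpos ρ ⟨i, by omega⟩
      simp only at h2
      rw [h2]
      unfold mixFun
      have h4 : ¬ (i < q) := by omega
      have h5 : ¬ (i < q + M) := by omega
      simp only [h4, h5, dite_false]
      omega)
    have h2 : (starts (bdE (D ρ)) : ℝ) ≤ a * n := by
      have h3 : (starts (bdE (D ρ)) : ℝ) ≤ (τ ρ).totalMoves := by exact_mod_cast hD5 ρ
      have h4 := hτ2 ρ
      have h5 : ((q + M + q : ℕ) : ℝ) = n := by rw [hn]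
      rw [h5] at h4
      linarith
    have h3 : (2 * κ * (ncyc (D ρ) (bdE (D ρ)) : ℕ) + 2 * κ * n : ℝ) ≤
        κ * starts (bdE (D ρ)) + 12 * starts (bdE (D ρ)) + 4 * κ ^ 3 := by exact_mod_cast h1
    have hκ0 : (0 : ℝ) < κ := by exact_mod_cast hκ1
    have hqr : (q : ℝ) = κ ^ 2 := by rw [hq]; push_cast; ring
    have h4 : ((κ : ℝ) + 12) * starts (bdE (D ρ)) ≤ (κ + 12) * (a * n) :=
      mul_le_mul_of_nonneg_left h2 (by positivity)
    have ha' : a = 4 - δ := by rw [hδ]; ring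
    rw [ha'] at h4
    have h5 : 48 * (n : ℝ) ≤ κ * δ / 2 * n := mul_le_mul_of_nonneg_right (by linarith) hn'.le
    have h6 : (0 : ℝ) ≤ 12 * δ * n := by positivity
    have h7 : (2 * κ : ℝ) * (ncyc (D ρ) (bdE (D ρ)) : ℕ) ≤ (2 * κ) * ((1 - δ / 4) * n + 2 * q) := by
      rw [hqr]
      nlinarith
    exact le_of_mul_le_mul_left h7 (by positivity)
  obtain ⟨k0, hk0⟩ : ∃ k0, k0 = ⌊(1 - δ / 4) * n + 2 * (q : ℝ)⌋₊ := ⟨_, rfl⟩
  have hnn : (0 : ℝ) ≤ (1 - δ / 4) * n + 2 * (q : ℝ) := le_trans (Nat.cast_nonneg _) (hcyc 1)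
  have hk1 : ∀ ρ, ncyc (D ρ) (bdE (D ρ)) ≤ k0 := by
    intro ρ
    rw [hk0]
    exact Nat.le_floor (hcyc ρ)
  have hk2 : (k0 : ℝ) ≤ (1 - δ / 4) * n + 2 * q := by
    rw [hk0]
    exact Nat.floor_le hnn
  have hcount := count_bound (boxE n) (8 * n) k0 (Finset.univ.image D) (by
    intro D' hD'
    obtain ⟨ρ, _, rfl⟩ := Finset.mem_image.1 hD'
    rw [hn]
    refine ⟨hD2 ρ, hD6 ρ, hD7 ρ, hk1 ρ⟩) (y := 1 / n) (by positivity) (by
    rw [div_le_one hn']
    have : 1 ≤ n := by omega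
    exact_mod_cast this)
  rw [Finset.card_image_of_injective _ hinj, Finset.card_univ, Fintype.card_perm,
    Fintype.card_fin, card_boxE] at hcount
  have hexp : 2 * (1 / (n : ℝ)) * ((16 * n ^ 2 : ℕ) : ℝ) = 32 * n := by
    push_cast
    field_simp
    ring
  rw [hexp] at hcount
  have hlogn : 0 ≤ Real.log n := by
    apply Real.log_nonneg
    have : 1 ≤ n := by omega
    exact_mod_cast this
  have hfact : (0 : ℝ) < (M.factorial : ℝ) := by exact_mod_cast M.factorial_pos
  have hlog := Real.log_le_log (by positivity) hcount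
  rw [Real.log_exp, Real.log_mul (by positivity) (by positivity),
    Real.log_mul (by positivity) (by positivity), Real.log_pow, Real.log_pow, one_div, one_div,
    Real.log_inv, Real.log_inv] at hlog
  have h6 : Real.log 6 ≤ 5 := by
    have := Real.log_le_sub_one_of_pos (by norm_num : (0 : ℝ) < 6)
    linarith
  have hM := log_fact_bound M
  have hMn : (M : ℝ) = n - 2 * q := by rw [hn]; push_cast; ring
  rw [← hn] at hM2 hM3
  have hM1' : 4 * (q : ℝ) ≤ n := by
    have : 4 * q ≤ n := by omega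
    exact_mod_cast this
  have hlogM : Real.log n - 1 ≤ Real.log M := by
    have h7 : (n : ℝ) / 2 ≤ M := by rw [hMn]; linarith
    have h8 := Real.log_le_log (by positivity) h7
    rw [Real.log_div (by positivity) (by norm_num)] at h8
    have h9 : Real.log 2 ≤ 1 := by
      have := Real.log_le_sub_one_of_pos (by norm_num : (0 : ℝ) < 2)
      linarith
    linarith
  have hM0 : (0 : ℝ) ≤ M := by positivity
  have e1 : (M : ℝ) * (Real.log n - 1) ≤ M * Real.log M := mul_le_mul_of_nonneg_left hlogM hM0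
  have e2 : (k0 : ℝ) * Real.log n ≤ ((1 - δ / 4) * n + 2 * q) * Real.log n :=
    mul_le_mul_of_nonneg_right hk2 hlogn
  have e3 : ((8 * n : ℕ) : ℝ) * Real.log 6 ≤ 40 * n := by
    have : ((8 * n : ℕ) : ℝ) = 8 * n := by push_cast; ring
    rw [this]
    nlinarith
  have e4 : 75 * (n : ℝ) < δ / 4 * Real.log n * n := mul_lt_mul_of_pos_right hM3 hn'
  rw [hMn] at e1 hM
  nlinarith

end Pool.Agent.Work.MP_74ecad_co
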