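import Pool.Agent.Work.MP_74ecad_co.Sums

set_option linter.unusedSimpArgs false

namespace Pool.Agent.Work.MP_74ecad_co

open scoped Classical in
/-- Edges on short boundary cycles. -/
noncomputable def smallE (D : Finset Cell) (K : ℕ) : Finset Edg :=
  (bdE D).filter (fun x => per D x ≤ K)

open scoped Classical in
/-- Edges on long boundary cycles. -/
noncomputable def largeE (D : Finset Cell) (K : ℕ) : Finset Edg :=
  (bdE D).filter (fun x => ¬ per D x ≤ K)

theorem per_nxt {D : Finset Cell} {x : Edg} (h : x ∈ bdE D) : per D (nxt D x) = per D x :=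
  per_eq h (nxt_mem_orb h (self_mem_orb h))

theorem closed_small (D : Finset Cell) (K : ℕ) : Closed D (smallE D K) := by
  classical
  refine ⟨Finset.filter_subset _ _, fun x hx => ?_⟩
  rw [smallE, Finset.mem_filter] at hx ⊢
  exact ⟨nxt_mem hx.1, by rw [per_nxt hx.1]; exact hx.2⟩

theorem closed_large (D : Finset Cell) (K : ℕ) : Closed D (largeE D K) := by
  classical
  refine ⟨Finset.filter_subset _ _, fun x hx => ?_⟩
  rw [largeE, Finset.mem_filter] at hx ⊢
  exact ⟨nxt_mem hx.1, by rw [per_nxt hx.1]; exact hx.2⟩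

theorem W_split (b : Bool) (D : Finset Cell) (K : ℕ) (u s : ℤ) :
    W b (bdE D) u s = W b (smallE D K) u s + W b (largeE D K) u s := by
  classical
  unfold W smallE largeE
  rw [Finset.filter_filter, Finset.filter_filter]
  rw [← Finset.sum_filter_add_sum_filter_not _ (fun x => per D x ≤ K), Finset.filter_filter,
    Finset.filter_filter]
  congr 1
  · apply Finset.sum_congr _ (fun _ _ => rfl)
    ext x
    simp only [Finset.mem_filter]
    tauto
  · apply Finset.sum_congr _ (fun _ _ => rfl)
    ext x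
    simp only [Finset.mem_filter]
    tauto

/-- One step changes the time by at most two. -/
theorem time_step (D : Finset Cell) (x : Edg) :
    (nxt D x).1.2 ≤ x.1.2 + 2 ∧ x.1.2 ≤ (nxt D x).1.2 + 2 := by
  obtain ⟨⟨p, t⟩, k⟩ := x
  unfold nxt
  generalize turn D ((p, t), k) = τ
  fin_cases k <;> fin_cases τ <;>
    simp only [stepE, dv, Fin.zero_eta, Fin.mk_one, Fin.reduceFinMk, Fin.isValue,
      zero_add, Fin.reduceAdd, Fin.reduceSub, Prod.mk_add_mk] <;> omega

theorem time_iter (D : Finset Cell) (x : Edg) (i : ℕ) :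
    ((nxt D)^[i] x).1.2 ≤ x.1.2 + 2 * i ∧ x.1.2 ≤ ((nxt D)^[i] x).1.2 + 2 * i := by
  induction i with
  | zero => simp
  | succ i ih =>
    rw [Function.iterate_succ_apply']
    have := time_step D ((nxt D)^[i] x)
    push_cast
    omega

theorem time_orb {D : Finset Cell} {x y : Edg} (hy : y ∈ orb D x) :
    y.1.2 ≤ x.1.2 + 2 * per D x := by
  unfold orb at hy
  obtain ⟨i, hi, rfl⟩ := Finset.mem_image.1 hy
  rw [Finset.mem_range] at hi
  have := (time_iter D x i).1
  omega

/-- Cells seen by short boundary cycles. -/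
noncomputable def seen (b : Bool) (D : Finset Cell) (K : ℕ) : Finset Cell :=
  D.filter (fun c => W b (smallE D K) (lin b c) (2 * c.2) ≠ 0)

theorem seen_spec {b : Bool} {D : Finset Cell} {K : ℕ} {c : Cell} (hc : c ∈ seen b D K) :
    ∃ x ∈ smallE D K, lin b x.1 = lin b c ∧ x.1.2 ≤ c.2 ∧ c.2 ≤ x.1.2 + 2 * K := by
  classical
  rw [seen, Finset.mem_filter] at hc
  obtain ⟨_, hc⟩ := hc
  by_contra hcon
  push Not at hcon
  apply hc
  -- the set of small edges whose orbit has a signed edge below c
  let A : Finset Edg := (smallE D K).filter (fun x => ∃ y ∈ orb D x, lin b y.1 = lin b c ∧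
    te y < 2 * c.2 ∧ sg b y ≠ 0)
  have hsm : ∀ x ∈ smallE D K, x ∈ bdE D := fun x hx => (Finset.mem_filter.1 hx).1
  have hA : Closed D A := by
    refine ⟨fun x hx => hsm x (Finset.mem_filter.1 hx).1, fun x hx => ?_⟩
    rw [Finset.mem_filter] at hx ⊢
    refine ⟨(closed_small D K).2 x hx.1, ?_⟩
    rw [orb_eq (hsm x hx.1) (nxt_mem_orb (hsm x hx.1) (self_mem_orb (hsm x hx.1)))]
    exact hx.2
  have h1 := closed_sum hA b (lin b c)
  rw [← h1]
  unfold W
  rw [Finset.sum_filter, Finset.sum_filter, ← Finset.sum_subset (Finset.filter_subset _ _)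
    (s₁ := A)]
  · apply Finset.sum_congr rfl
    intro x hx
    by_cases h2 : lin b x.1 = lin b c
    · by_cases h3 : te x < 2 * c.2
      · simp [h2, h3]
      · -- then sg = 0
        have h4 : sg b x = 0 := by
          by_contra h4
          have hx' := (Finset.mem_filter.1 hx)
          obtain ⟨y, hy, hy1, hy2, hy3⟩ := hx'.2
          have hxE := hsm x hx'.1
          have hyE := orb_sub hxE hy
          have hys : y ∈ smallE D K := by
            rw [smallE, Finset.mem_filter]
            refine ⟨hyE, ?_⟩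
            rw [per_eq hxE hy]
            exact (Finset.mem_filter.1 hx'.1).2
          have hty : y.1.2 ≤ c.2 := by
            obtain ⟨d, k⟩ := y
            fin_cases k <;> simp only [te, Fin.zero_eta, Fin.mk_one, Fin.reduceFinMk] at hy2 ⊢ <;>
              omega
          have h5 := hcon y hys hy1 hty
          have hxy : x ∈ orb D y := by
            rw [orb_eq hxE hy]
            exact self_mem_orb hxE
          have h6 := time_orb hxy
          have h7 : per D y ≤ K := (Finset.mem_filter.1 hys).2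
          have h8 : c.2 ≤ x.1.2 := by
            obtain ⟨d, k⟩ := x
            fin_cases k <;> simp only [te, Fin.zero_eta, Fin.mk_one, Fin.reduceFinMk] at h3 ⊢ <;>
              omega
          have h9 : (per D y : ℤ) ≤ K := by exact_mod_cast h7
          omega
        simp [h4]
    · simp [h2]
  · intro x hx hxA
    by_contra h2
    apply hxA
    rw [Finset.mem_filter]
    have h3 : lin b x.1 = lin b c ∧ te x < 2 * c.2 := by
      by_contra h
      exact h2 (by rw [if_neg h])
    rw [if_pos h3] at h2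
    exact ⟨hx, x, self_mem_orb (hsm x hx), h3.1, h3.2, h2⟩

theorem seen_card (b : Bool) (D : Finset Cell) (K : ℕ) :
    (seen b D K).card ≤ (bdE D).card * (2 * K + 1) := by
  classical
  have hsub : seen b D K ⊆ ((bdE D) ×ˢ (Finset.range (2 * K + 1))).image
      (fun xs : Edg × ℕ => pt b (lin b xs.1.1) (xs.1.1.2 + xs.2)) := by
    intro c hc
    obtain ⟨x, hx, h1, h2, h3⟩ := seen_spec hc
    rw [Finset.mem_image]
    refine ⟨(x, (c.2 - x.1.2).toNat), ?_, ?_⟩
    · rw [Finset.mem_product, Finset.mem_range]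
      refine ⟨(Finset.mem_filter.1 hx).1, ?_⟩
      simp only
      omega
    · simp only
      rw [h1]
      have : x.1.2 + ((c.2 - x.1.2).toNat : ℤ) = c.2 := by omega
      rw [this, pt_lin]
  refine (Finset.card_le_card hsub).trans (Finset.card_image_le.trans ?_)
  rw [Finset.card_product, Finset.card_range]

theorem sg_le_one (b : Bool) (x : Edg) : sg b x ≤ 1 := by
  obtain ⟨c, k⟩ := x
  cases b <;> fin_cases k <;> simp [sg]

/-- Every unseen cell of `D` has a long boundary cycle edge at the start of a run on its line. -/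
theorem exists_large {b : Bool} {D : Finset Cell} (hD : ∀ c ∈ D, 0 ≤ c.2) {K : ℕ} {c : Cell}
    (hc : c ∈ D) (hs : c ∉ seen b D K) :
    ∃ x ∈ largeE D K, lin b x.1 = lin b c ∧ sg b x = 1 := by
  classical
  have h1 := W_mem b hD (lin b c) c.2 (by have := hD c hc; omega)
  rw [pt_lin, if_pos hc, W_split b D K] at h1
  have h2 : W b (smallE D K) (lin b c) (2 * c.2) = 0 := by
    by_contra h
    exact hs (by rw [seen, Finset.mem_filter]; exact ⟨hc, h⟩)
  rw [h2, zero_add] at h1
  by_contra hcon
  push Not at hcon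
  have h3 : W b (largeE D K) (lin b c) (2 * c.2) ≤ 0 := by
    unfold W
    apply Finset.sum_nonpos
    intro x hx
    rw [Finset.mem_filter] at hx
    have h4 := hcon x hx.1 hx.2.1
    have h5 := sg_le_one b x
    omega
  omega

theorem large_card {b : Bool} {D : Finset Cell} (hD : ∀ c ∈ D, 0 ≤ c.2) {K : ℕ}
    {G : Finset Cell} (hG : G ⊆ D) (hs : ∀ c ∈ G, c ∉ seen b D K)
    (hinj : ∀ c ∈ G, ∀ d ∈ G, lin b c = lin b d → c = d) :
    G.card ≤ ((largeE D K).filter (fun x => sg b x = 1)).card := by
  classical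
  have hch : ∀ c, ∃ x, c ∈ G → x ∈ largeE D K ∧ lin b x.1 = lin b c ∧ sg b x = 1 := by
    intro c
    by_cases hc : c ∈ G
    · obtain ⟨x, h1, h2, h3⟩ := exists_large hD (hG hc) (hs c hc)
      exact ⟨x, fun _ => ⟨h1, h2, h3⟩⟩
    · exact ⟨(c, 0), fun h => absurd h hc⟩
  choose f hf using hch
  apply Finset.card_le_card_of_injOn f
  · intro c hc
    obtain ⟨h1, h2, h3⟩ := hf c hc
    exact Finset.mem_coe.2 (Finset.mem_filter.2 ⟨h1, h3⟩)
  · intro c hc d hd hcd
    apply hinj c hc d hd
    rw [← (hf c hc).2.1, ← (hf d hd).2.1, hcd]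

end Pool.Agent.Work.MP_74ecad_co
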