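import Pool.Agent.Work.MP_74ecad_co.Macro

set_option linter.unusedSimpArgs false

namespace Pool.Agent.Work.MP_74ecad_co

theorem closed_sum_all {D : Finset Cell} {A : Finset Edg} (h : Closed D A) (b : Bool) :
    ∑ x ∈ A, sg b x = 0 := by
  have h1 := h.sum_nxt (fun x => lin b x.1 + vs b x.2)
  simp only [vs_nxt] at h1
  rw [← sub_eq_zero, ← Finset.sum_sub_distrib] at h1
  have h2 : ∀ x : Edg, lin b x.1 + ve b x.2 - (lin b x.1 + vs b x.2) = (2 * eps b) * sg b x := by
    rintro ⟨c, k⟩
    cases b <;> fin_cases k <;>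
      simp only [ve, vs, eps, sg, Fin.zero_eta, Fin.mk_one, Fin.reduceFinMk, Fin.isValue,
        Bool.false_eq_true, if_false, if_true] <;> ring
  simp only [h2] at h1
  rw [← Finset.mul_sum] at h1
  rcases mul_eq_zero.1 h1 with h3 | h3
  · exfalso
    cases b <;> simp [eps] at h3
  · exact h3

theorem sg_cases (b : Bool) (x : Edg) : sg b x = 1 ∨ sg b x = -1 ∨ sg b x = 0 := by
  obtain ⟨c, k⟩ := x
  cases b <;> fin_cases k <;> simp [sg]

theorem turn_parity (D : Finset Cell) (b : Bool) (x : Edg) (h1 : sg b x = 0)
    (h2 : sg b (nxt D x) = 0) : (nxt D x).2 = x.2 := by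
  obtain ⟨⟨p, t⟩, k⟩ := x
  unfold nxt at *
  generalize turn D ((p, t), k) = τ at *
  revert h1 h2
  cases b <;> fin_cases k <;> fin_cases τ <;>
    simp only [stepE, sg, Fin.zero_eta, Fin.mk_one, Fin.reduceFinMk, Fin.isValue,
      zero_add, Fin.reduceAdd, Fin.reduceSub] <;> decide

theorem sg_other (b : Bool) (x : Edg) (h : sg b x = 0) : sg (!b) x ≠ 0 := by
  obtain ⟨c, k⟩ := x
  revert h
  cases b <;> fin_cases k <;>
    simp only [sg, Fin.zero_eta, Fin.mk_one, Fin.reduceFinMk, Fin.isValue, Bool.not_false,
      Bool.not_true] <;> decide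

theorem sg_congr (b : Bool) {x y : Edg} (h : x.2 = y.2) : sg b x = sg b y := by
  unfold sg
  rw [h]

/-- Every boundary cycle contains starts of runs of both kinds. -/
theorem orb_has {D : Finset Cell} {x : Edg} (h : x ∈ bdE D) (b : Bool) :
    ∃ y ∈ orb D x, sg b y = 1 := by
  classical
  by_contra hcon
  push Not at hcon
  have hC := closed_orb h
  have h0 : ∀ y ∈ orb D x, sg b y = 0 := by
    have hle : ∀ y ∈ orb D x, sg b y ≤ 0 := by
      intro y hy
      rcases sg_cases b y with h1 | h1 | h1
      · exact absurd h1 (hcon y hy)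
      · omega
      · omega
    have hs := closed_sum_all hC b
    exact (Finset.sum_eq_zero_iff_of_nonpos hle).1 hs
  have hdir : ∀ i, ((nxt D)^[i] x).2 = x.2 := by
    intro i
    induction i with
    | zero => rfl
    | succ i ih =>
      have hi : (nxt D)^[i] x ∈ orb D x := (mem_orb_iff h).2 ⟨i, rfl⟩
      rw [Function.iterate_succ_apply', ← ih]
      exact turn_parity D b _ (h0 _ hi) (h0 _ (nxt_mem_orb h hi))
  have hdir' : ∀ y ∈ orb D x, y.2 = x.2 := by
    intro y hy
    obtain ⟨i, rfl⟩ := (mem_orb_iff h).1 hy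
    exact hdir i
  have hs := closed_sum_all hC (!b)
  have hx0 := sg_other b x (h0 x (self_mem_orb h))
  rw [Finset.sum_congr rfl (fun y hy => sg_congr (!b) (hdir' y hy)), Finset.sum_const,
    nsmul_eq_mul] at hs
  rcases mul_eq_zero.1 hs with h1 | h1
  · have h2 : (orb D x).card = 0 := by exact_mod_cast h1
    rw [Finset.card_eq_zero] at h2
    have h3 := self_mem_orb h
    rw [h2] at h3
    exact absurd h3 (Finset.notMem_empty x)
  · exact hx0 h1

/-- Number of boundary cycles meeting `A`. -/
noncomputable def ncyc (D : Finset Cell) (A : Finset Edg) : ℕ := (A.image (orb D)).card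

theorem ncyc_le {D : Finset Cell} {A : Finset Edg} (hA : Closed D A) (b : Bool) :
    ncyc D A ≤ (A.filter (fun x => sg b x = 1)).card := by
  classical
  have hch : ∀ C : Finset Edg, ∃ y : Edg, C ∈ A.image (orb D) → y ∈ A ∧ sg b y = 1 ∧
      orb D y = C := by
    intro C
    by_cases hC : C ∈ A.image (orb D)
    · obtain ⟨x, hx, rfl⟩ := Finset.mem_image.1 hC
      obtain ⟨y, hy, h1⟩ := orb_has (hA.1 hx) b
      refine ⟨y, fun _ => ⟨?_, h1, orb_eq (hA.1 hx) hy⟩⟩
      obtain ⟨i, rfl⟩ := (mem_orb_iff (hA.1 hx)).1 hy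
      clear hy h1
      induction i with
      | zero => exact hx
      | succ i ih => rw [Function.iterate_succ_apply']; exact hA.2 _ ih
    · exact ⟨((0, 0), 0), fun h => absurd h hC⟩
  choose f hf using hch
  apply Finset.card_le_card_of_injOn f
  · intro C hC
    obtain ⟨h1, h2, _⟩ := hf C hC
    exact Finset.mem_coe.2 (Finset.mem_filter.2 ⟨h1, h2⟩)
  · intro C hC C' hC' hCC
    rw [← (hf C hC).2.2, ← (hf C' hC').2.2, hCC]

theorem ncyc_split (D : Finset Cell) (K : ℕ) :
    ncyc D (bdE D) ≤ ncyc D (smallE D K) + ncyc D (largeE D K) := by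
  classical
  unfold ncyc
  have : (bdE D).image (orb D) ⊆ (smallE D K).image (orb D) ∪ (largeE D K).image (orb D) := by
    rw [← Finset.image_union]
    apply Finset.image_subset_image
    intro x hx
    rw [Finset.mem_union, smallE, largeE, Finset.mem_filter, Finset.mem_filter]
    by_cases h : per D x ≤ K
    · exact Or.inl ⟨hx, h⟩
    · exact Or.inr ⟨hx, h⟩
  exact (Finset.card_le_card this).trans (Finset.card_union_le _ _)

theorem fiber_orb {D : Finset Cell} {A : Finset Edg} (hA : Closed D A) {x : Edg} (hx : x ∈ A) :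
    A.filter (fun y => orb D y = orb D x) = orb D x := by
  classical
  ext y
  rw [Finset.mem_filter]
  constructor
  · rintro ⟨h1, h2⟩
    rw [← h2]
    exact self_mem_orb (hA.1 h1)
  · intro hy
    refine ⟨?_, orb_eq (hA.1 hx) hy⟩
    obtain ⟨i, rfl⟩ := (mem_orb_iff (hA.1 hx)).1 hy
    clear hy
    induction i with
    | zero => exact hx
    | succ i ih => rw [Function.iterate_succ_apply']; exact hA.2 _ ih

theorem card_eq_sum_orb {D : Finset Cell} {A : Finset Edg} (hA : Closed D A) :
    A.card = ∑ C ∈ A.image (orb D), C.card := by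
  classical
  rw [Finset.card_eq_sum_card_image (orb D) A]
  apply Finset.sum_congr rfl
  intro C hC
  obtain ⟨x, hx, rfl⟩ := Finset.mem_image.1 hC
  rw [fiber_orb hA hx]

theorem ncyc_large (D : Finset Cell) (K : ℕ) :
    (K + 1) * ncyc D (largeE D K) ≤ (largeE D K).card := by
  classical
  rw [card_eq_sum_orb (closed_large D K), Nat.mul_comm]
  unfold ncyc
  rw [← smul_eq_mul]
  apply Finset.card_nsmul_le_sum
  intro C hC
  obtain ⟨x, hx, rfl⟩ := Finset.mem_image.1 hC
  rw [card_orb]
  have := (Finset.mem_filter.1 hx).2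
  omega

/-- Number of starts of runs among the edges of `A`. -/
def starts (A : Finset Edg) : ℕ :=
  (A.filter (fun x => sg false x = 1)).card + (A.filter (fun x => sg true x = 1)).card

theorem card_sg {D : Finset Cell} {A : Finset Edg} (hA : Closed D A) (b : Bool) :
    (A.filter (fun x => sg b x ≠ 0)).card = 2 * (A.filter (fun x => sg b x = 1)).card := by
  classical
  have h1 := closed_sum_all hA b
  have h2 : ∀ x : Edg, sg b x = (if sg b x = 1 then 1 else 0) - (if sg b x = -1 then 1 else 0) := by
    intro x
    rcases sg_cases b x with h | h | h <;> simp [h]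
  rw [Finset.sum_congr rfl (fun x _ => h2 x), Finset.sum_sub_distrib, ← Finset.sum_filter,
    ← Finset.sum_filter, Finset.sum_const, Finset.sum_const] at h1
  simp only [nsmul_eq_mul, mul_one] at h1
  have h3 : A.filter (fun x => sg b x ≠ 0) =
      A.filter (fun x => sg b x = 1) ∪ A.filter (fun x => sg b x = -1) := by
    ext x
    simp only [Finset.mem_filter, Finset.mem_union]
    rcases sg_cases b x with h | h | h <;> simp [h]
  rw [h3, Finset.card_union_of_disjoint]
  · omega
  · rw [Finset.disjoint_left]
    intro x hx hx'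
    have := (Finset.mem_filter.1 hx).2
    have := (Finset.mem_filter.1 hx').2
    omega

theorem card_eq_starts {D : Finset Cell} {A : Finset Edg} (hA : Closed D A) :
    A.card = 2 * starts A := by
  classical
  unfold starts
  rw [mul_add, ← card_sg hA, ← card_sg hA, ← Finset.card_union_of_disjoint]
  · congr 1
    ext ⟨c, k⟩
    simp only [Finset.mem_union, Finset.mem_filter]
    constructor
    · intro h
      fin_cases k <;> simp [sg] <;> exact h
    · rintro (h | h) <;> exact h.1
  · rw [Finset.disjoint_left]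
    rintro ⟨c, k⟩ hx hx'
    have h1 := (Finset.mem_filter.1 hx).2
    have h2 := (Finset.mem_filter.1 hx').2
    revert h1 h2
    fin_cases k <;> simp [sg]

theorem starts_split (D : Finset Cell) (K : ℕ) :
    starts (bdE D) = starts (smallE D K) + starts (largeE D K) := by
  classical
  have key : ∀ b : Bool, ((bdE D).filter (fun x => sg b x = 1)).card =
      ((smallE D K).filter (fun x => sg b x = 1)).card +
      ((largeE D K).filter (fun x => sg b x = 1)).card := by
    intro b
    rw [smallE, largeE, Finset.filter_filter, Finset.filter_filter,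
      ← Finset.card_filter_add_card_filter_not (s := (bdE D).filter (fun x => sg b x = 1))
        (fun x => per D x ≤ K), Finset.filter_filter, Finset.filter_filter]
    congr 2
    · ext x; simp only [Finset.mem_filter]; tauto
    · ext x; simp only [Finset.mem_filter]; tauto
  unfold starts
  rw [key, key]
  ring

end Pool.Agent.Work.MP_74ecad_co
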