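import Pool.Agent.Work.MP_74ecad_co.Orbits

namespace Pool.Agent.Work.MP_74ecad_co

/-- No two overlapping swaps at the same time. -/
def NonOv (D : Finset Cell) : Prop := ∀ p t, (p, t) ∈ D → (p + 1, t) ∉ D

/-- Effect of step `t` on a position. -/
def mvp (D : Finset Cell) (t : ℕ) (x : ℤ) : ℤ :=
  if (x, (t : ℤ)) ∈ D then x + 1 else if (x - 1, (t : ℤ)) ∈ D then x - 1 else x

/-- Position at time `t` of the element that starts at `x0`. -/
def pth (D : Finset Cell) (x0 : ℤ) : ℕ → ℤ
  | 0 => x0
  | t + 1 => mvp D t (pth D x0 t)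

theorem mvp_inj {D : Finset Cell} (hD : NonOv D) (t : ℕ) {x y : ℤ} (h : mvp D t x = mvp D t y) :
    x = y := by
  have key : ∀ x y : ℤ, x < y → mvp D t x ≠ mvp D t y := by
    intro x y hxy h
    unfold mvp at h
    split_ifs at h with h1 h2 h3 h4 h5 h6 h7 h8
    · omega
    · -- x + 1 = y - 1
      have : y - 1 = x + 1 := by omega
      rw [this] at h3
      exact hD _ _ h1 h3
    · have : y = x + 1 := by omega
      rw [this] at h3
      simp only [add_sub_cancel_right] at h3
      exact h3 h1
    · omega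
    · omega
    · omega
    · omega
    · have : y - 1 = x := by omega
      rw [this] at h8
      exact h1 h8
    · omega
  rcases lt_trichotomy x y with h1 | h1 | h1
  · exact absurd h (key x y h1)
  · exact h1
  · exact absurd h.symm (key y x h1)

theorem pth_inj {D : Finset Cell} (hD : NonOv D) {x0 y0 : ℤ} (t : ℕ)
    (h : pth D x0 t = pth D y0 t) : x0 = y0 := by
  induction t with
  | zero => exact h
  | succ t ih => exact ih (mvp_inj hD t h)

/-- Right steps. -/
def rsteps (D : Finset Cell) (x0 : ℤ) (T : ℕ) : Finset ℕ :=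
  (Finset.range T).filter (fun t => (pth D x0 t, (t : ℤ)) ∈ D)

/-- Left steps. -/
def lsteps (D : Finset Cell) (x0 : ℤ) (T : ℕ) : Finset ℕ :=
  (Finset.range T).filter (fun t => (pth D x0 t - 1, (t : ℤ)) ∈ D)

/-- Cells of the right or left steps. -/
def stepCells (b : Bool) (D : Finset Cell) (x0 : ℤ) (T : ℕ) : Finset Cell :=
  if b then (lsteps D x0 T).image (fun t => (pth D x0 t - 1, (t : ℤ)))
  else (rsteps D x0 T).image (fun t => (pth D x0 t, (t : ℤ)))

theorem stepCells_sub (b : Bool) (D : Finset Cell) (x0 : ℤ) (T : ℕ) :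
    stepCells b D x0 T ⊆ D := by
  intro c hc
  cases b
  · simp only [stepCells, Bool.false_eq_true, if_false, Finset.mem_image, rsteps,
      Finset.mem_filter] at hc
    obtain ⟨t, ⟨_, h⟩, rfl⟩ := hc
    exact h
  · simp only [stepCells, if_true, Finset.mem_image, lsteps, Finset.mem_filter] at hc
    obtain ⟨t, ⟨_, h⟩, rfl⟩ := hc
    exact h

theorem pth_step (D : Finset Cell) (x0 : ℤ) (t : ℕ) :
    pth D x0 (t + 1) ≤ pth D x0 t + 1 ∧ pth D x0 t ≤ pth D x0 (t + 1) + 1 := by
  change mvp D t (pth D x0 t) ≤ _ ∧ _ ≤ mvp D t (pth D x0 t) + 1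
  unfold mvp
  split_ifs <;> omega

theorem pth_mono_u (D : Finset Cell) (x0 : ℤ) {s t : ℕ} (h : s ≤ t) :
    pth D x0 s + s ≤ pth D x0 t + t := by
  induction t, h using Nat.le_induction with
  | base => exact le_refl _
  | succ t _ ih =>
    have := (pth_step D x0 t).2
    push_cast
    omega

theorem pth_mono_v (D : Finset Cell) (x0 : ℤ) {s t : ℕ} (h : s ≤ t) :
    (s : ℤ) - pth D x0 s ≤ t - pth D x0 t := by
  induction t, h using Nat.le_induction with
  | base => exact le_refl _
  | succ t _ ih =>
    have := (pth_step D x0 t).1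
    push_cast
    omega

theorem pth_right {D : Finset Cell} {x0 : ℤ} {t : ℕ} (h : (pth D x0 t, (t : ℤ)) ∈ D) :
    pth D x0 (t + 1) = pth D x0 t + 1 := by
  change mvp D t (pth D x0 t) = _
  unfold mvp
  rw [if_pos h]

theorem pth_left {D : Finset Cell} (hD : NonOv D) {x0 : ℤ} {t : ℕ}
    (h : (pth D x0 t - 1, (t : ℤ)) ∈ D) : pth D x0 (t + 1) = pth D x0 t - 1 := by
  change mvp D t (pth D x0 t) = _
  unfold mvp
  have h1 := hD _ _ h
  rw [sub_add_cancel] at h1
  rw [if_neg h1, if_pos h]

theorem stepCells_inj (b : Bool) {D : Finset Cell} (hD : NonOv D) (x0 : ℤ) (T : ℕ) :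
    ∀ c ∈ stepCells b D x0 T, ∀ d ∈ stepCells b D x0 T, lin b c = lin b d → c = d := by
  intro c hc d hd hcd
  cases b
  · simp only [stepCells, Bool.false_eq_true, if_false, Finset.mem_image, rsteps,
      Finset.mem_filter] at hc hd
    obtain ⟨s, ⟨_, hs⟩, rfl⟩ := hc
    obtain ⟨t, ⟨_, ht⟩, rfl⟩ := hd
    simp only [lin, Bool.false_eq_true, if_false] at hcd
    rcases lt_trichotomy s t with h | h | h
    · have h1 := pth_mono_u D x0 h
      have h2 := pth_right hs
      change pth D x0 (s + 1) + ((s + 1 : ℕ) : ℤ) ≤ _ at h1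
      push_cast at h1
      omega
    · rw [h]
    · have h1 := pth_mono_u D x0 h
      have h2 := pth_right ht
      change pth D x0 (t + 1) + ((t + 1 : ℕ) : ℤ) ≤ _ at h1
      push_cast at h1
      omega
  · simp only [stepCells, if_true, Finset.mem_image, lsteps, Finset.mem_filter] at hc hd
    obtain ⟨s, ⟨_, hs⟩, rfl⟩ := hc
    obtain ⟨t, ⟨_, ht⟩, rfl⟩ := hd
    simp only [lin, if_true] at hcd
    rcases lt_trichotomy s t with h | h | h
    · have h1 := pth_mono_v D x0 h
      have h2 := pth_left hD hs
      change ((s + 1 : ℕ) : ℤ) - pth D x0 (s + 1) ≤ _ at h1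
      push_cast at h1
      omega
    · rw [h]
    · have h1 := pth_mono_v D x0 h
      have h2 := pth_left hD ht
      change ((t + 1 : ℕ) : ℤ) - pth D x0 (t + 1) ≤ _ at h1
      push_cast at h1
      omega

theorem card_rsteps (D : Finset Cell) (x0 : ℤ) (T : ℕ) :
    pth D x0 T ≤ x0 + (rsteps D x0 T).card := by
  induction T with
  | zero => simp [pth]
  | succ T ih =>
    have h1 : (rsteps D x0 (T + 1)).card = (rsteps D x0 T).card +
        (if (pth D x0 T, (T : ℤ)) ∈ D then 1 else 0) := by
      unfold rsteps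
      rw [Finset.range_add_one, Finset.filter_insert]
      split_ifs with h
      · rw [Finset.card_insert_of_notMem (by simp)]
      · rfl
    rw [h1]
    change mvp D T (pth D x0 T) ≤ _
    unfold mvp
    split_ifs <;> push_cast <;> omega

theorem card_lsteps (D : Finset Cell) (x0 : ℤ) (T : ℕ) :
    x0 ≤ pth D x0 T + (lsteps D x0 T).card := by
  induction T with
  | zero => simp [pth]
  | succ T ih =>
    have h1 : (lsteps D x0 (T + 1)).card = (lsteps D x0 T).card +
        (if (pth D x0 T - 1, (T : ℤ)) ∈ D then 1 else 0) := by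
      unfold lsteps
      rw [Finset.range_add_one, Finset.filter_insert]
      split_ifs with h
      · rw [Finset.card_insert_of_notMem (by simp)]
      · rfl
    rw [h1]
    change _ ≤ mvp D T (pth D x0 T) + _
    unfold mvp
    split_ifs <;> push_cast <;> omega

theorem card_stepCells_false (D : Finset Cell) (x0 : ℤ) (T : ℕ) :
    pth D x0 T ≤ x0 + (stepCells false D x0 T).card := by
  have : (stepCells false D x0 T).card = (rsteps D x0 T).card := by
    simp only [stepCells, Bool.false_eq_true, if_false]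
    apply Finset.card_image_of_injective
    intro s t h
    simp only [Prod.mk.injEq, Nat.cast_inj] at h
    exact h.2
  rw [this]
  exact card_rsteps D x0 T

theorem card_stepCells_true (D : Finset Cell) (x0 : ℤ) (T : ℕ) :
    x0 ≤ pth D x0 T + (stepCells true D x0 T).card := by
  have : (stepCells true D x0 T).card = (lsteps D x0 T).card := by
    simp only [stepCells, if_true]
    apply Finset.card_image_of_injective
    intro s t h
    simp only [Prod.mk.injEq, Nat.cast_inj] at h
    exact h.2
  rw [this]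
  exact card_lsteps D x0 T

theorem stepCells_disj (b : Bool) {D : Finset Cell} (hD : NonOv D) {x0 y0 : ℤ} (hne : x0 ≠ y0)
    (T : ℕ) : Disjoint (stepCells b D x0 T) (stepCells b D y0 T) := by
  rw [Finset.disjoint_left]
  intro c hc hd
  cases b
  · simp only [stepCells, Bool.false_eq_true, if_false, Finset.mem_image, rsteps,
      Finset.mem_filter] at hc hd
    obtain ⟨s, ⟨_, hs⟩, rfl⟩ := hc
    obtain ⟨t, ⟨_, ht⟩, h⟩ := hd
    simp only [Prod.mk.injEq, Nat.cast_inj] at h
    obtain ⟨h1, rfl⟩ := h
    exact hne (pth_inj hD _ h1.symm)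
  · simp only [stepCells, if_true, Finset.mem_image, lsteps, Finset.mem_filter] at hc hd
    obtain ⟨s, ⟨_, hs⟩, rfl⟩ := hc
    obtain ⟨t, ⟨_, ht⟩, h⟩ := hd
    simp only [Prod.mk.injEq, Nat.cast_inj] at h
    obtain ⟨h1, rfl⟩ := h
    exact hne (pth_inj hD t (by omega))

/-- Among `q` paths one has few seen step cells. -/
theorem exists_few_seen (b : Bool) {D : Finset Cell} (hD : NonOv D) (K T : ℕ)
    (s : Finset ℤ) (hs : s.Nonempty) :
    ∃ x0 ∈ s, s.card * ((stepCells b D x0 T).filter (fun c => c ∈ seen b D K)).card ≤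
      (bdE D).card * (2 * K + 1) := by
  classical
  by_contra hcon
  push Not at hcon
  have h1 : ∑ x0 ∈ s, ((stepCells b D x0 T).filter (fun c => c ∈ seen b D K)).card ≤
      (seen b D K).card := by
    rw [← Finset.card_biUnion]
    · apply Finset.card_le_card
      intro c hc
      rw [Finset.mem_biUnion] at hc
      obtain ⟨x0, _, hc⟩ := hc
      exact (Finset.mem_filter.1 hc).2
    · intro x _ y _ hxy
      exact Finset.disjoint_filter_filter (stepCells_disj b hD hxy T)
  have h2 := seen_card b D K
  have h3 : s.card * ((bdE D).card * (2 * K + 1)) <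
      ∑ x0 ∈ s, s.card * ((stepCells b D x0 T).filter (fun c => c ∈ seen b D K)).card := by
    rw [← smul_eq_mul, ← Finset.sum_const]
    exact Finset.sum_lt_sum_of_nonempty hs hcon
  rw [← Finset.mul_sum] at h3
  have h4 := Nat.lt_of_mul_lt_mul_left h3
  omega

/-- The number of long starts of runs is at least the displacement up to seen cells. -/
theorem large_ge (b : Bool) {D : Finset Cell} (hD : NonOv D) (h0 : ∀ c ∈ D, 0 ≤ c.2)
    (K T : ℕ) (x0 : ℤ) :
    (stepCells b D x0 T).card ≤ ((largeE D K).filter (fun x => sg b x = 1)).card +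
      ((stepCells b D x0 T).filter (fun c => c ∈ seen b D K)).card := by
  classical
  rw [← Finset.card_filter_add_card_filter_not (s := stepCells b D x0 T)
    (fun c => c ∈ seen b D K), add_comm]
  apply Nat.add_le_add_right
  apply large_card h0
  · exact (Finset.filter_subset _ _).trans (stepCells_sub b D x0 T)
  · intro c hc
    exact (Finset.mem_filter.1 hc).2
  · intro c hc d hd
    exact stepCells_inj b hD x0 T c (Finset.mem_filter.1 hc).1 d (Finset.mem_filter.1 hd).1

end Pool.Agent.Work.MP_74ecad_co
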