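import Pool.Agent.Work.MP_74ecad_co.Cells

set_option linter.unusedSimpArgs false

namespace Pool.Agent.Work.MP_74ecad_co

/-- The two families of diagonal lines. -/
def lin (b : Bool) (c : Cell) : ℤ := if b then c.2 - c.1 else c.1 + c.2

/-- Sign of a boundary edge with respect to a family of lines. -/
def sg (b : Bool) (x : Edg) : ℤ :=
  match b, x.2 with
  | false, 3 => 1
  | false, 1 => -1
  | true, 2 => 1
  | true, 0 => -1
  | _, _ => 0

/-- Line offset of the first vertex of an edge. -/
def vs (b : Bool) (k : Fin 4) : ℤ :=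
  match b, k with
  | false, 0 => 1
  | false, 1 => 1
  | false, 2 => -1
  | false, 3 => -1
  | true, 0 => -1
  | true, 1 => 1
  | true, 2 => 1
  | true, 3 => -1

/-- Line offset of the last vertex of an edge. -/
def ve (b : Bool) (k : Fin 4) : ℤ :=
  match b, k with
  | false, 0 => 1
  | false, 1 => -1
  | false, 2 => -1
  | false, 3 => 1
  | true, 0 => 1
  | true, 1 => 1
  | true, 2 => -1
  | true, 3 => -1

/-- Twice the time of the middle of an edge. -/
def te (x : Edg) : ℤ :=
  match x.2 with
  | 0 => 2 * x.1.2 + 1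
  | 1 => 2 * x.1.2 + 1
  | 2 => 2 * x.1.2 - 1
  | 3 => 2 * x.1.2 - 1

theorem vs_nxt (D : Finset Cell) (b : Bool) (x : Edg) :
    lin b (nxt D x).1 + vs b (nxt D x).2 = lin b x.1 + ve b x.2 := by
  obtain ⟨⟨p, t⟩, k⟩ := x
  unfold nxt
  generalize turn D ((p, t), k) = τ
  cases b <;> fin_cases k <;> fin_cases τ <;>
    simp only [lin, stepE, vs, ve, dv, Fin.zero_eta, Fin.mk_one, Fin.reduceFinMk, Fin.isValue,
      zero_add, Fin.reduceAdd, Fin.reduceSub, Prod.mk_add_mk, Bool.false_eq_true, if_false,
      if_true] <;> ring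

/-- Orientation sign. -/
def eps (b : Bool) : ℤ := if b then -1 else 1

theorem step_diff (b : Bool) (u : ℤ) (x : Edg) :
    (if (lin b x.1 + ve b x.2 - u - 1) % 2 = 0 ∧ u < lin b x.1 + ve b x.2 then (1 : ℤ) else 0) -
    (if (lin b x.1 + vs b x.2 - u - 1) % 2 = 0 ∧ u < lin b x.1 + vs b x.2 then (1 : ℤ) else 0) =
    eps b * (if lin b x.1 = u then sg b x else 0) := by
  obtain ⟨⟨p, t⟩, k⟩ := x
  cases b <;> fin_cases k <;>
    simp only [lin, sg, vs, ve, eps, Fin.zero_eta, Fin.mk_one, Fin.reduceFinMk, Fin.isValue,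
      Bool.false_eq_true, if_false, if_true] <;> split_ifs <;> omega

theorem closed_sum {D : Finset Cell} {A : Finset Edg} (h : Closed D A) (b : Bool) (u : ℤ) :
    ∑ x ∈ A.filter (fun x => lin b x.1 = u), sg b x = 0 := by
  have h1 := h.sum_nxt (fun x => if (lin b x.1 + vs b x.2 - u - 1) % 2 = 0 ∧
    u < lin b x.1 + vs b x.2 then (1 : ℤ) else 0)
  simp only [vs_nxt] at h1
  have h2 : ∑ x ∈ A, eps b * (if lin b x.1 = u then sg b x else 0) = 0 := by
    rw [← sub_eq_zero, ← Finset.sum_sub_distrib] at h1
    refine Eq.trans ?_ h1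
    exact Finset.sum_congr rfl (fun x _ => (step_diff b u x).symm)
  rw [← Finset.mul_sum] at h2
  rw [Finset.sum_filter]
  rcases mul_eq_zero.1 h2 with h3 | h3
  · exfalso
    cases b <;> simp [eps] at h3
  · exact h3

/-- Signed count of the edges of `A` on the line `u` before time `s / 2`. -/
def W (b : Bool) (A : Finset Edg) (u s : ℤ) : ℤ :=
  ∑ x ∈ A.filter (fun x => lin b x.1 = u ∧ te x < s), sg b x

/-- The cell at time `t` on a line. -/
def pt (b : Bool) (u t : ℤ) : Cell := if b then (t - u, t) else (u - t, t)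

theorem pt_lin (b : Bool) (c : Cell) : pt b (lin b c) c.2 = c := by
  obtain ⟨p, t⟩ := c
  cases b <;> simp [pt, lin]

theorem lin_pt (b : Bool) (u t : ℤ) : lin b (pt b u t) = u := by
  cases b <;> simp [pt, lin]

theorem pt_time (b : Bool) (u t : ℤ) : (pt b u t).2 = t := by
  cases b <;> simp [pt]

/-- Direction index of an end of a run. -/
def kn (b : Bool) : Fin 4 := if b then 0 else 1

/-- Direction index of a start of a run. -/
def kp (b : Bool) : Fin 4 := if b then 2 else 3

theorem pt_add (b : Bool) (u t : ℤ) : pt b u t + dv (kn b) = pt b u (t + 1) := by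
  cases b <;> simp [pt, dv, kn] <;> ring

theorem pt_sub (b : Bool) (u t : ℤ) : pt b u (t + 1) + dv (kp b) = pt b u t := by
  cases b <;> simp [pt, dv, kp] <;> ring

theorem W_step (b : Bool) (D : Finset Cell) (u t : ℤ) :
    W b (bdE D) u (2 * (t + 1)) = W b (bdE D) u (2 * t) +
      ((if pt b u (t + 1) ∈ D then 1 else 0) - (if pt b u t ∈ D then 1 else 0)) := by
  classical
  unfold W
  rw [Finset.sum_filter, Finset.sum_filter]
  have hsplit : ∀ x : Edg, (if lin b x.1 = u ∧ te x < 2 * (t + 1) then sg b x else 0) =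
      (if lin b x.1 = u ∧ te x < 2 * t then sg b x else 0) +
      (if lin b x.1 = u ∧ te x = 2 * t + 1 then sg b x else 0) := by
    intro x
    have hodd : te x ≠ 2 * t := by
      obtain ⟨c, k⟩ := x
      fin_cases k <;> simp only [te, Fin.zero_eta, Fin.mk_one, Fin.reduceFinMk] <;> omega
    by_cases h1 : lin b x.1 = u
    · simp only [h1, true_and]
      split_ifs <;> omega
    · simp [h1]
  simp only [hsplit]
  rw [Finset.sum_add_distrib]
  congr 1
  -- only two edges contribute
  have hne : ((pt b u t, kn b) : Edg) ≠ (pt b u (t + 1), kp b) := by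
    intro h
    have := congrArg (fun x : Edg => x.1.2) h
    simp only [pt_time] at this
    omega
  have hsub : ∑ x ∈ bdE D, (if lin b x.1 = u ∧ te x = 2 * t + 1 then sg b x else 0) =
      ∑ x ∈ ({(pt b u t, kn b), (pt b u (t + 1), kp b)} : Finset Edg).filter (· ∈ bdE D),
        (if lin b x.1 = u ∧ te x = 2 * t + 1 then sg b x else 0) := by
    symm
    apply Finset.sum_subset
    · intro x hx
      exact (Finset.mem_filter.1 hx).2
    · intro x hx hx2
      by_contra hcon
      apply hx2
      rw [Finset.mem_filter]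
      refine ⟨?_, hx⟩
      rw [Finset.mem_insert, Finset.mem_singleton]
      have h1 : lin b x.1 = u ∧ te x = 2 * t + 1 := by
        by_contra h
        exact hcon (by rw [if_neg h])
      rw [if_pos h1] at hcon
      obtain ⟨h2, h3⟩ := h1
      have h4 := pt_lin b x.1
      rw [h2] at h4
      obtain ⟨c, k⟩ := x
      simp only at h2 h4
      rw [← h4]
      cases b <;> fin_cases k <;>
        simp only [sg, te, kn, kp, Fin.zero_eta, Fin.mk_one, Fin.reduceFinMk, Fin.isValue, ne_eq,
          not_true_eq_false, Bool.false_eq_true, if_false, if_true] at hcon h3 ⊢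
      · left
        have : c.2 = t := by omega
        rw [this]
      · right
        have : c.2 = t + 1 := by omega
        rw [this]
      · left
        have : c.2 = t := by omega
        rw [this]
      · right
        have : c.2 = t + 1 := by omega
        rw [this]
  rw [hsub, Finset.sum_filter, Finset.sum_pair hne]
  have e1 : te (pt b u t, kn b) = 2 * t + 1 := by
    cases b <;> simp [te, kn, pt]
  have e2 : te (pt b u (t + 1), kp b) = 2 * t + 1 := by
    cases b <;> simp [te, kp, pt] <;> ring
  have e3 : sg b (pt b u t, kn b) = -1 := by cases b <;> rfl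
  have e4 : sg b (pt b u (t + 1), kp b) = 1 := by cases b <;> rfl
  simp only [lin_pt, e1, e2, e3, e4, and_self, if_true, mem_bdE, IsBd, pt_add, pt_sub]
  by_cases h1 : pt b u t ∈ D <;> by_cases h2 : pt b u (t + 1) ∈ D <;> simp [h1, h2]

theorem W_mem (b : Bool) {D : Finset Cell} (hD : ∀ c ∈ D, 0 ≤ c.2) (u : ℤ) (t : ℤ)
    (ht : -1 ≤ t) : W b (bdE D) u (2 * t) = if pt b u t ∈ D then 1 else 0 := by
  induction t, ht using Int.leInduction with
  | base =>
    have h1 : pt b u (-1) ∉ D := by
      intro h
      have := hD _ h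
      rw [pt_time] at this
      omega
    rw [if_neg h1]
    unfold W
    apply Finset.sum_eq_zero
    intro x hx
    exfalso
    rw [Finset.mem_filter] at hx
    obtain ⟨h2, _, h3⟩ := hx
    have h4 := hD _ (mem_bdE.1 h2).1
    obtain ⟨c, k⟩ := x
    fin_cases k <;> simp only [te, Fin.zero_eta, Fin.mk_one, Fin.reduceFinMk] at h3 h4 <;> omega
  | succ t _ ih =>
    rw [W_step, ih]
    ring

end Pool.Agent.Work.MP_74ecad_co
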