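import Pool.Agent.Work.MP_74ecad_co.Convert

namespace Pool.Agent.Work.MP_74ecad_co

variable {n : ℕ}

/-- The cells of a tangle. -/
def Tangle.cells (τ : Tangle n) : Finset Cell :=
  (Finset.range τ.T).biUnion (fun t => (τ.swaps t).image (fun p : ℕ => ((p : ℤ), (t : ℤ))))

theorem Tangle.mem_cells (τ : Tangle n) {p t : ℕ} :
    (((p : ℤ), (t : ℤ)) ∈ τ.cells) ↔ t < τ.T ∧ p ∈ τ.swaps t := by
  simp only [Tangle.cells, Finset.mem_biUnion, Finset.mem_range, Finset.mem_image, Prod.mk.injEq,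
    Nat.cast_inj]
  constructor
  · rintro ⟨t', h1, p', h2, rfl, rfl⟩
    exact ⟨h1, h2⟩
  · rintro ⟨h1, h2⟩
    exact ⟨t, h1, p, h2, rfl, rfl⟩

theorem Tangle.exists_of_mem_cells (τ : Tangle n) {c : Cell} (h : c ∈ τ.cells) :
    ∃ p t : ℕ, c = ((p : ℤ), (t : ℤ)) ∧ t < τ.T ∧ p ∈ τ.swaps t := by
  simp only [Tangle.cells, Finset.mem_biUnion, Finset.mem_range, Finset.mem_image] at h
  obtain ⟨t, h1, p, h2, rfl⟩ := h
  exact ⟨p, t, rfl, h1, h2⟩

theorem Tangle.nonOv (τ : Tangle n) : NonOv τ.cells := by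
  intro p t h h'
  obtain ⟨p1, t1, h1, h2, h3⟩ := τ.exists_of_mem_cells h
  obtain ⟨p2, t2, h4, h5, h6⟩ := τ.exists_of_mem_cells h'
  simp only [Prod.mk.injEq] at h1 h4
  have ht : t1 = t2 := by omega
  subst ht
  have := τ.swaps_far t1 h2 p1 h3 p2 h6 (by omega)
  omega

theorem Tangle.cells_time (τ : Tangle n) : ∀ c ∈ τ.cells, 0 ≤ c.2 := by
  intro c h
  obtain ⟨p, t, rfl, _⟩ := τ.exists_of_mem_cells h
  simp

theorem Tangle.cells_lt (τ : Tangle n) : ∀ c ∈ τ.cells, c.2 < τ.T := by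
  intro c h
  obtain ⟨p, t, rfl, h1, _⟩ := τ.exists_of_mem_cells h
  simpa using h1

theorem Tangle.pos_succ (τ : Tangle n) {t : ℕ} (ht : t < τ.T) (i : Fin n) :
    τ.pos (t + 1) i = mvp τ.cells t (τ.pos t i) := by
  obtain ⟨x, hx⟩ : ∃ x, x = (τ.perm t).symm i := ⟨_, rfl⟩
  have hxi : τ.perm t x = i := by rw [hx]; simp
  have hpos : τ.pos t i = (x.val : ℤ) := by rw [Tangle.pos, ← hx]
  rw [hpos]
  unfold mvp
  split_ifs with h1 h2
  · rw [τ.mem_cells] at h1
    have hlt := τ.swaps_lt t ht _ h1.2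
    have := (τ.perm_swap t ht x ⟨x.val + 1, hlt⟩ h1.2 rfl).2
    rw [hxi] at this
    rw [Tangle.pos, ← this]
    simp
  · obtain ⟨p, s, h3, h4, h5⟩ := τ.exists_of_mem_cells h2
    simp only [Prod.mk.injEq, Nat.cast_inj] at h3
    obtain ⟨h3, rfl⟩ := h3
    have hlt := τ.swaps_lt t ht _ h5
    have hx1 : x.val = p + 1 := by omega
    have := (τ.perm_swap t ht ⟨p, by omega⟩ x h5 hx1).1
    rw [hxi] at this
    rw [Tangle.pos, ← this]
    simp [hx1]
  · have := τ.perm_fix t ht x (fun h => h1 (τ.mem_cells.2 ⟨ht, h⟩)) (by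
      intro p hp hpx
      apply h2
      have : ((x.val : ℤ) - 1) = (p : ℤ) := by omega
      rw [this]
      exact τ.mem_cells.2 ⟨ht, hp⟩)
    rw [hxi] at this
    rw [Tangle.pos, ← this]
    simp

theorem Tangle.pth_eq (τ : Tangle n) (i : Fin n) {t : ℕ} (ht : t ≤ τ.T) :
    pth τ.cells (i.val : ℤ) t = τ.pos t i := by
  induction t with
  | zero =>
    rw [Tangle.pos, τ.perm_zero]
    rfl
  | succ t ih =>
    rw [τ.pos_succ (by omega), ← ih (by omega)]
    rfl

theorem Tangle.disp_eq (τ : Tangle n) {t : ℕ} (ht : t < τ.T) (i : Fin n) :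
    τ.disp i t = if (τ.pos t i, (t : ℤ)) ∈ τ.cells then 1 else
      if (τ.pos t i - 1, (t : ℤ)) ∈ τ.cells then -1 else 0 := by
  unfold Tangle.disp
  rw [τ.pos_succ ht]
  unfold mvp
  split_ifs <;> omega

theorem Tangle.disp_prev (τ : Tangle n) {t : ℕ} (ht : t < τ.T) (i : Fin n) :
    τ.disp i t = if (τ.pos (t + 1) i - 1, (t : ℤ)) ∈ τ.cells then 1 else
      if (τ.pos (t + 1) i, (t : ℤ)) ∈ τ.cells then -1 else 0 := by
  rw [τ.disp_eq ht, τ.pos_succ ht]
  have hno := τ.nonOv
  unfold mvp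
  by_cases h1 : (τ.pos t i, (t : ℤ)) ∈ τ.cells
  · simp [h1]
  · by_cases h2 : (τ.pos t i - 1, (t : ℤ)) ∈ τ.cells
    · rw [if_neg h1, if_neg h1, if_pos h2, if_pos h2, if_neg, if_pos h2]
      intro h3
      have := hno _ _ h3
      rw [sub_add_cancel] at this
      exact this h2
    · simp [h1, h2]

theorem start_aux (a b c d : Prop) [Decidable a] [Decidable b] [Decidable c] [Decidable d]
    (e1 : a → ¬ b) (e2 : c → ¬ d) :
    ((if a then (1 : ℤ) else if b then -1 else 0) ≠ 0 ∧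
      (if d then (1 : ℤ) else if c then -1 else 0) ≠ (if a then 1 else if b then -1 else 0)) ↔
    ((a ∧ ¬ d) ∨ (b ∧ ¬ c)) := by
  by_cases ha : a <;> by_cases hb : b <;> by_cases hc : c <;> by_cases hd : d <;>
    simp_all

theorem start_aux0 (a b : Prop) [Decidable a] [Decidable b] :
    ((if a then (1 : ℤ) else if b then -1 else 0) ≠ 0) ↔ (a ∨ b) := by
  by_cases ha : a <;> by_cases hb : b <;> simp_all

/-- Number of moves that start in step `t`. -/
theorem Tangle.card_start (τ : Tangle n) {t : ℕ} (ht : t < τ.T) :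
    ((Finset.univ : Finset (Fin n)).filter
      (fun i => τ.disp i t ≠ 0 ∧ (t = 0 ∨ τ.disp i (t - 1) ≠ τ.disp i t))).card =
    cost (slice τ.cells ((t : ℤ) - 1)) (slice τ.cells t) := by
  classical
  have hno := τ.nonOv
  have hprev : ∀ i : Fin n, (τ.disp i t ≠ 0 ∧ (t = 0 ∨ τ.disp i (t - 1) ≠ τ.disp i t)) ↔
      (((τ.pos t i, (t : ℤ)) ∈ τ.cells ∧ (τ.pos t i - 1, (t : ℤ) - 1) ∉ τ.cells) ∨
      ((τ.pos t i - 1, (t : ℤ)) ∈ τ.cells ∧ (τ.pos t i, (t : ℤ) - 1) ∉ τ.cells)) := by
    intro i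
    rw [τ.disp_eq ht]
    rcases Nat.eq_zero_or_pos t with h0 | h0
    · subst h0
      have hn : ∀ p : ℤ, (p, ((0 : ℕ) : ℤ) - 1) ∉ τ.cells := by
        intro p hp
        have := τ.cells_time _ hp
        simp at this
      simp only [true_or, and_true, hn, not_false_eq_true]
      exact start_aux0 _ _
    · obtain ⟨s, rfl⟩ : ∃ s, t = s + 1 := ⟨t - 1, by omega⟩
      rw [Nat.add_sub_cancel, τ.disp_prev (by omega : s < τ.T)]
      have hs : (((s + 1 : ℕ) : ℤ) - 1) = (s : ℤ) := by push_cast; ring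
      rw [hs]
      have e1 : (τ.pos (s + 1) i, ((s + 1 : ℕ) : ℤ)) ∈ τ.cells →
          (τ.pos (s + 1) i - 1, ((s + 1 : ℕ) : ℤ)) ∉ τ.cells := by
        intro h h'
        have := hno _ _ h'
        rw [sub_add_cancel] at this
        exact this h
      have e2 : (τ.pos (s + 1) i, (s : ℤ)) ∈ τ.cells →
          (τ.pos (s + 1) i - 1, (s : ℤ)) ∉ τ.cells := by
        intro h h'
        have := hno _ _ h'
        rw [sub_add_cancel] at this
        exact this h
      have hz : ¬ (s + 1 = 0) := by omega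
      simp only [hz, false_or]
      exact start_aux _ _ _ _ e1 e2
  rw [Finset.filter_congr (fun i _ => hprev i), Finset.filter_or, Finset.card_union_of_disjoint]
  · unfold cost
    have hinj : ∀ i j : Fin n, τ.pos t i = τ.pos t j → i = j := by
      intro i j h
      simp only [Tangle.pos, Nat.cast_inj] at h
      exact (τ.perm t).symm.injective (Fin.ext h)
    congr 1
    · refine Finset.card_bij (fun i _ => τ.pos t i) ?_ ?_ ?_
      · intro i hi
        rw [Finset.mem_filter] at hi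
        rw [Finset.mem_filter, mem_slice, mem_slice]
        exact hi.2
      · intro i _ j _ h
        exact hinj i j h
      · intro p hp
        rw [Finset.mem_filter, mem_slice, mem_slice] at hp
        obtain ⟨p', t', h1, h2, h3⟩ := τ.exists_of_mem_cells hp.1
        simp only [Prod.mk.injEq, Nat.cast_inj] at h1
        obtain ⟨rfl, rfl⟩ := h1
        have hlt := τ.swaps_lt t ht _ h3
        have hp' : τ.pos t (τ.perm t ⟨p', by omega⟩) = p' := by simp [Tangle.pos]
        refine ⟨τ.perm t ⟨p', by omega⟩, ?_, hp'⟩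
        rw [Finset.mem_filter, hp']
        exact ⟨Finset.mem_univ _, hp⟩
    · refine Finset.card_bij (fun i _ => τ.pos t i - 1) ?_ ?_ ?_
      · intro i hi
        rw [Finset.mem_filter] at hi
        rw [Finset.mem_filter, mem_slice, mem_slice, sub_add_cancel]
        exact hi.2
      · intro i _ j _ h
        exact hinj i j (by simpa using h)
      · intro p hp
        rw [Finset.mem_filter, mem_slice, mem_slice] at hp
        obtain ⟨p', t', h1, h2, h3⟩ := τ.exists_of_mem_cells hp.1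
        simp only [Prod.mk.injEq, Nat.cast_inj] at h1
        obtain ⟨rfl, rfl⟩ := h1
        have hlt := τ.swaps_lt t ht _ h3
        have hp' : τ.pos t (τ.perm t ⟨p' + 1, hlt⟩) = p' + 1 := by simp [Tangle.pos]
        refine ⟨τ.perm t ⟨p' + 1, hlt⟩, ?_, by rw [hp']; ring⟩
        rw [Finset.mem_filter, hp', add_sub_cancel_right]
        exact ⟨Finset.mem_univ _, hp⟩
  · rw [Finset.disjoint_left]
    intro i hi hi'
    have h1 := (Finset.mem_filter.1 hi).2.1
    have h2 := (Finset.mem_filter.1 hi').2.1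
    have := hno _ _ h2
    rw [sub_add_cancel] at this
    exact this h1

theorem Tangle.totalMoves_eq (τ : Tangle n) : τ.totalMoves = starts (bdE τ.cells) := by
  classical
  rw [starts_eq_sum τ.cells_time τ.cells_lt]
  unfold Tangle.totalMoves Tangle.moves
  simp only [Finset.card_filter]
  rw [Finset.sum_comm]
  apply Finset.sum_congr rfl
  intro t ht
  rw [← τ.card_start (Finset.mem_range.1 ht), Finset.card_filter]

end Pool.Agent.Work.MP_74ecad_co
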