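import Pool.Agent.Work.MP_74ecad_co.TangleCells

namespace Pool.Agent.Work.MP_74ecad_co

/-- Effect of a set of swaps on a position. -/
def swp (A : Finset ℕ) (x : ℕ) : ℕ :=
  if x ∈ A then x + 1 else if 1 ≤ x ∧ x - 1 ∈ A then x - 1 else x

theorem swp_swp {A : Finset ℕ} (hA : ∀ p ∈ A, ∀ q ∈ A, p < q → p + 2 ≤ q) (x : ℕ) :
    swp A (swp A x) = x := by
  unfold swp
  by_cases h1 : x ∈ A
  · have h2 : x + 1 ∉ A := by
      intro h
      have := hA x h1 (x + 1) h (by omega)
      omega
    simp [h1, h2]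
  · by_cases h2 : 1 ≤ x ∧ x - 1 ∈ A
    · have h3 : x - 1 ∈ A := h2.2
      rw [if_neg h1, if_pos h2, if_pos h3]
      omega
    · simp [h1, h2]

theorem swp_lt {A : Finset ℕ} {n : ℕ} (hA : ∀ p ∈ A, p + 1 < n) {x : ℕ} (hx : x < n) :
    swp A x < n := by
  unfold swp
  split_ifs with h1 h2
  · exact hA x h1
  · omega
  · exact hx

/-- The permutation of positions. -/
def swpPerm {n : ℕ} (A : Finset ℕ) (h1 : ∀ p ∈ A, p + 1 < n)
    (h2 : ∀ p ∈ A, ∀ q ∈ A, p < q → p + 2 ≤ q) : Equiv.Perm (Fin n) where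
  toFun x := ⟨swp A x.val, swp_lt h1 x.2⟩
  invFun x := ⟨swp A x.val, swp_lt h1 x.2⟩
  left_inv x := by
    apply Fin.ext
    exact swp_swp h2 x.val
  right_inv x := by
    apply Fin.ext
    exact swp_swp h2 x.val

/-- The sequence of permutations of a sequence of sets of swaps. -/
def permSeq {n : ℕ} (s : ℕ → Finset ℕ) (h1 : ∀ t, ∀ p ∈ s t, p + 1 < n)
    (h2 : ∀ t, ∀ p ∈ s t, ∀ q ∈ s t, p < q → p + 2 ≤ q) : ℕ → Equiv.Perm (Fin n)
  | 0 => 1
  | t + 1 => permSeq s h1 h2 t * swpPerm (s t) (h1 t) (h2 t)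

/-- The tangle of a sequence of sets of swaps. -/
def mkTangle {n : ℕ} (T : ℕ) (s : ℕ → Finset ℕ) (h1 : ∀ t, ∀ p ∈ s t, p + 1 < n)
    (h2 : ∀ t, ∀ p ∈ s t, ∀ q ∈ s t, p < q → p + 2 ≤ q) : Tangle n where
  T := T
  perm := permSeq s h1 h2
  swaps := s
  perm_zero := rfl
  swaps_lt t _ := h1 t
  swaps_far t _ := h2 t
  perm_swap t _ x y hx hy := by
    have e1 : swpPerm (s t) (h1 t) (h2 t) x = y := by
      apply Fin.ext
      change swp (s t) x.val = y.val
      unfold swp
      rw [if_pos hx, hy]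
    have e2 : swpPerm (s t) (h1 t) (h2 t) y = x := by
      rw [← e1]
      apply Fin.ext
      exact swp_swp (h2 t) x.val
    constructor
    · change permSeq s h1 h2 t (swpPerm (s t) (h1 t) (h2 t) x) = _
      rw [e1]
    · change permSeq s h1 h2 t (swpPerm (s t) (h1 t) (h2 t) y) = _
      rw [e2]
  perm_fix t _ x hx hx' := by
    have e1 : swpPerm (s t) (h1 t) (h2 t) x = x := by
      apply Fin.ext
      change swp (s t) x.val = x.val
      unfold swp
      rw [if_neg hx, if_neg]
      rintro ⟨h3, h4⟩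
      exact hx' _ h4 (by omega)
    change permSeq s h1 h2 t (swpPerm (s t) (h1 t) (h2 t) x) = _
    rw [e1]

open scoped Classical in
/-- The element moving to the right along a row. -/
noncomputable def mv (S : ℕ → ℕ) (w : ℕ → Prop) : ℕ → ℕ
  | 0 => S 0
  | x + 1 => if w x then mv S w x else S (x + 1)

open scoped Classical in
/-- The arrangement after a row. -/
noncomputable def nx (S : ℕ → ℕ) (w : ℕ → Prop) (x : ℕ) : ℕ :=
  if w x then S (x + 1) else mv S w x

open scoped Classical in
/-- Place of the skipped swap of a row. -/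
noncomputable def cut (n : ℕ) (tg : ℕ → ℕ) (S : ℕ → ℕ) (a : ℕ) : ℕ :=
  if h : ∃ y, 1 ≤ y ∧ y + a < n ∧ S y = tg a then h.choose - 1 else n

/-- The arrangement after `a` rows. -/
noncomputable def rowS (n : ℕ) (tg : ℕ → ℕ) : ℕ → (ℕ → ℕ)
  | 0 => fun x => x
  | a + 1 => nx (rowS n tg a) (fun x => x + a + 1 < n ∧ x ≠ cut n tg (rowS n tg a) a)

/-- The swap at `x` in row `a` is performed. -/
def sw (n : ℕ) (tg : ℕ → ℕ) (a x : ℕ) : Prop :=
  x + a + 1 < n ∧ x ≠ cut n tg (rowS n tg a) a

theorem rowS_succ (n : ℕ) (tg : ℕ → ℕ) (a : ℕ) :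
    rowS n tg (a + 1) = nx (rowS n tg a) (sw n tg a) := rfl

theorem mv_pos (S : ℕ → ℕ) (w : ℕ → Prop) (x : ℕ) (h : w x) : mv S w (x + 1) = mv S w x := by
  simp [mv, h]

theorem mv_neg (S : ℕ → ℕ) (w : ℕ → Prop) (x : ℕ) (h : ¬ w x) : mv S w (x + 1) = S (x + 1) := by
  simp [mv, h]

theorem nx_pos (S : ℕ → ℕ) (w : ℕ → Prop) (x : ℕ) (h : w x) : nx S w x = S (x + 1) := by
  simp [nx, h]

theorem nx_neg (S : ℕ → ℕ) (w : ℕ → Prop) (x : ℕ) (h : ¬ w x) : nx S w x = mv S w x := by
  simp [nx, h]

theorem sum_row (S : ℕ → ℕ) (w : ℕ → Prop) (f : ℕ → ℕ) (k : ℕ) :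
    ∑ x ∈ Finset.range k, f (nx S w x) + f (mv S w k) = ∑ x ∈ Finset.range (k + 1), f (S x) := by
  induction k with
  | zero => simp [mv]
  | succ k ih =>
    rw [Finset.sum_range_succ, Finset.sum_range_succ _ (k + 1), ← ih]
    by_cases h : w k
    · rw [nx_pos S w k h, mv_pos S w k h]
      ring
    · rw [nx_neg S w k h, mv_neg S w k h]

theorem rowS_count (n : ℕ) (tg : ℕ → ℕ) (a v : ℕ) (hv : v < n) :
    ∑ x ∈ Finset.range n, (if rowS n tg a x = v then 1 else 0) = 1 := by
  induction a with
  | zero =>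
    change ∑ x ∈ Finset.range n, (if x = v then 1 else 0) = 1
    simp [hv]
  | succ a ih =>
    obtain ⟨m, rfl⟩ : ∃ m, n = m + 1 := ⟨n - 1, by omega⟩
    rw [rowS_succ, Finset.sum_range_succ, nx_neg]
    · rw [sum_row (rowS (m + 1) tg a) (sw (m + 1) tg a) (fun z => if z = v then 1 else 0) m]
      exact ih
    · rintro ⟨h, _⟩
      omega

theorem rowS_unique {n : ℕ} {tg : ℕ → ℕ} {a v x y : ℕ} (hv : v < n) (hx : x < n) (hy : y < n)
    (h1 : rowS n tg a x = v) (h2 : rowS n tg a y = v) : x = y := by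
  by_contra hne
  have h := rowS_count n tg a v hv
  have h3 : ∑ z ∈ ({x, y} : Finset ℕ), (if rowS n tg a z = v then 1 else 0) ≤
      ∑ z ∈ Finset.range n, (if rowS n tg a z = v then 1 else 0) := by
    apply Finset.sum_le_sum_of_subset
    intro z hz
    rw [Finset.mem_insert, Finset.mem_singleton] at hz
    rcases hz with rfl | rfl <;> simpa
  rw [Finset.sum_pair hne, h1, h2, h] at h3
  simp at h3

theorem rowS_exists {n : ℕ} {tg : ℕ → ℕ} {a v : ℕ} (hv : v < n) :
    ∃ x < n, rowS n tg a x = v := by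
  by_contra hcon
  push Not at hcon
  have h := rowS_count n tg a v hv
  rw [Finset.sum_eq_zero] at h
  · omega
  · intro x hx
    rw [if_neg (hcon x (Finset.mem_range.1 hx))]

/-- After `a` rows the last `a` positions are correct. -/
theorem rowS_target {n : ℕ} {tg : ℕ → ℕ} (h1 : ∀ a < n, tg a < n)
    (h2 : ∀ a < n, ∀ b < n, tg a = tg b → a = b) (a : ℕ) (ha : a ≤ n) :
    ∀ b < a, rowS n tg a (n - 1 - b) = tg b := by
  induction a with
  | zero =>
    intro b hb
    omega
  | succ a ih =>
    have ih' := ih (by omega)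
    intro b hb
    rcases Nat.lt_or_ge b a with hba | hba
    · -- position already correct
      have e1 : ¬ sw n tg a (n - 1 - b) := fun h => by
        have := h.1
        omega
      obtain ⟨z, hz⟩ : ∃ z, n - 1 - b = z + 1 := ⟨n - 1 - b - 1, by omega⟩
      have e2 : ¬ sw n tg a z := fun h => by
        have := h.1
        omega
      rw [rowS_succ, nx_neg _ _ _ e1, hz, mv_neg _ _ _ e2, ← hz]
      exact ih' b hba
    · have hb' : b = a := by omega
      subst hb'
      have e1 : ¬ sw n tg b (n - 1 - b) := fun h => by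
        have := h.1
        omega
      rw [rowS_succ, nx_neg _ _ _ e1]
      obtain ⟨x, hx, hxv⟩ := rowS_exists (n := n) (tg := tg) (a := b) (h1 b (by omega))
      have hxb : x + b < n := by
        by_contra hcon
        have h3 := ih' (n - 1 - x) (by omega)
        have h4 : n - 1 - (n - 1 - x) = x := by omega
        rw [h4, hxv] at h3
        have := h2 b (by omega) (n - 1 - x) (by omega) h3
        omega
      rcases Nat.eq_zero_or_pos x with hx0 | hx0
      · subst hx0
        have hcut : cut n tg (rowS n tg b) b = n := by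
          unfold cut
          rw [dif_neg]
          rintro ⟨y, hy1, hy2, hy3⟩
          have := rowS_unique (h1 b (by omega)) hx (by omega : y < n) hxv hy3
          omega
        have key : ∀ k, k + b < n → mv (rowS n tg b) (sw n tg b) k = tg b := by
          intro k
          induction k with
          | zero => intro _; exact hxv
          | succ k ihk =>
            intro hk
            rw [mv_pos _ _ _ ⟨by omega, by rw [hcut]; omega⟩]
            exact ihk (by omega)
        exact key _ (by omega)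
      · have hex : ∃ y, 1 ≤ y ∧ y + b < n ∧ rowS n tg b y = tg b := ⟨x, hx0, hxb, hxv⟩
        obtain ⟨y, hy⟩ : ∃ y, y = hex.choose := ⟨_, rfl⟩
        have hyp := hex.choose_spec
        rw [← hy] at hyp
        have hcut : cut n tg (rowS n tg b) b = y - 1 := by
          unfold cut
          rw [dif_pos hex, hy]
        have key : ∀ k, y + k + b < n → mv (rowS n tg b) (sw n tg b) (y + k) = tg b := by
          intro k
          induction k with
          | zero =>
            intro _
            obtain ⟨z, hz⟩ : ∃ z, y = z + 1 := ⟨y - 1, by omega⟩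
            have e2 : ¬ sw n tg b z := fun h => by
              apply h.2
              rw [hcut]
              omega
            rw [add_zero]
            rw [hz] at hyp ⊢
            rw [mv_neg _ _ _ e2]
            exact hyp.2.2
          | succ k ihk =>
            intro hk
            rw [← add_assoc, mv_pos _ _ _ ⟨by omega, by rw [hcut]; omega⟩]
            exact ihk (by omega)
        obtain ⟨k, hk⟩ : ∃ k, n - 1 - b = y + k := ⟨n - 1 - b - y, by omega⟩
        rw [hk]
        exact key k (by omega)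

end Pool.Agent.Work.MP_74ecad_co
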